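import Pool.Agent.L0h45.AR.Stm

/-!
# Project AR, module FP: the quartic form of a point (helper71)
-/

set_option autoImplicit false

open Polynomial

namespace Pool.Agent.L0h45.AR

namespace FormPt

/-- the denominators of the coordinates of a point -/
lemma dens {A B : ℤ} {x y : ℚ} (h : y ^ 2 = x ^ 3 + A * x + B) :
    ∃ (t r s : ℤ), t ≠ 0 ∧ IsCoprime r t ∧ x = r / t ^ 2 ∧
      s ^ 2 = r ^ 3 + A * r * t ^ 4 + B * t ^ 6 := by
  set n : ℤ := (x.den : ℤ) with hn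
  set m : ℤ := x.num with hm
  set b : ℤ := (y.den : ℤ) with hb
  set a : ℤ := y.num with ha
  have hn0 : n ≠ 0 := by rw [hn]; exact_mod_cast x.den_nz
  have hb0 : b ≠ 0 := by rw [hb]; exact_mod_cast y.den_nz
  have hnq : (n : ℚ) ≠ 0 := by exact_mod_cast hn0
  have hbq : (b : ℚ) ≠ 0 := by exact_mod_cast hb0
  have hx : x = m / n := by
    rw [hm, hn]
    exact_mod_cast (Rat.num_div_den x).symm
  have hy : y = a / b := by
    rw [ha, hb]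
    exact_mod_cast (Rat.num_div_den y).symm
  have hmn : IsCoprime m n := by
    rw [hm, hn, Int.isCoprime_iff_gcd_eq_one]
    exact x.reduced
  have hab : IsCoprime a b := by
    rw [ha, hb, Int.isCoprime_iff_gcd_eq_one]
    exact y.reduced
  have h1 : a ^ 2 * n ^ 3 = (m ^ 3 + A * m * n ^ 2 + B * n ^ 3) * b ^ 2 := by
    rw [hx, hy] at h
    field_simp at h
    have h2 : (a : ℚ) ^ 2 * n ^ 3 = (m ^ 3 + A * m * n ^ 2 + B * n ^ 3) * b ^ 2 := by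
      linear_combination h
    exact_mod_cast h2
  have hun : IsCoprime (m ^ 3 + A * m * n ^ 2 + B * n ^ 3) n := by
    have h2 : m ^ 3 + A * m * n ^ 2 + B * n ^ 3 = m ^ 3 + n * (A * m * n + B * n ^ 2) := by ring
    rw [h2]
    exact (IsCoprime.add_mul_left_left_iff).mpr hmn.pow_left
  have h2 : n ^ 3 ∣ b ^ 2 := by
    have h3 : n ^ 3 ∣ (m ^ 3 + A * m * n ^ 2 + B * n ^ 3) * b ^ 2 := by
      rw [← h1]
      exact dvd_mul_left _ _
    exact (hun.pow_right (n := 3)).symm.dvd_of_dvd_mul_left h3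
  have h3 : b ^ 2 ∣ n ^ 3 := by
    have h4 : b ^ 2 ∣ a ^ 2 * n ^ 3 := by
      rw [h1]
      exact dvd_mul_left _ _
    exact (hab.pow (m := 2) (n := 2)).symm.dvd_of_dvd_mul_left h4
  have hbpos : 0 < b := by
    rw [hb]
    exact_mod_cast y.den_pos
  have hnpos : 0 < n := by
    rw [hn]
    exact_mod_cast x.den_pos
  have h4 : b ^ 2 = n ^ 3 := Int.dvd_antisymm (by positivity) (by positivity) h3 h2
  have h5 : n ^ 2 ∣ b ^ 2 := by
    rw [h4]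
    exact pow_dvd_pow _ (by norm_num)
  have h6 : n ∣ b := (Int.pow_dvd_pow_iff (by norm_num)).mp h5
  obtain ⟨t, ht⟩ := h6
  have h7 : t ^ 2 = n := by
    have h8 : n ^ 2 * t ^ 2 = n ^ 2 * n := by
      rw [← mul_pow, ← ht, h4]
      ring
    exact mul_left_cancel₀ (pow_ne_zero 2 hn0) h8
  have ht0 : t ≠ 0 := by
    rintro rfl
    rw [mul_zero] at ht
    exact hb0 ht
  refine ⟨t, m, a, ht0, ?_, ?_, ?_⟩
  · rw [← h7] at hmn
    exact (IsCoprime.pow_right_iff (by norm_num)).mp hmn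
  · rw [hx, ← h7]
    push_cast
    rfl
  · rw [h4] at h1
    have h8 := mul_right_cancel₀ (pow_ne_zero 3 hn0) h1
    rw [h8, ← h7]
    ring

end FormPt

open FormPt in
/-- **FP** -/
theorem fp : S_FP := by
  intro A B x y h
  obtain ⟨t, r, s, ht, hrt, hx, hs⟩ := dens h
  have htq : (t : ℚ) ≠ 0 := by exact_mod_cast ht
  obtain ⟨u, v, huv⟩ : IsCoprime r (t ^ 6) := hrt.pow_right
  -- `k r = s mod t ^ 6`
  obtain ⟨k, w, hk⟩ : ∃ k w : ℤ, k * r = s + t ^ 6 * w := by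
    refine ⟨s * u, -(s * v), ?_⟩
    linear_combination s * huv
  have hr4 : ∀ j : ℕ, IsCoprime (t ^ 4) (r ^ j) := fun j => (hrt.symm.pow)
  have hr6 : ∀ j : ℕ, IsCoprime (t ^ 6) (r ^ j) := fun j => (hrt.symm.pow)
  obtain ⟨c1, hc1⟩ : t ^ 4 ∣ k ^ 2 - r := by
    have h1 : t ^ 4 ∣ r ^ 2 * (k ^ 2 - r) := by
      refine ⟨A * r + B * t ^ 2 + t ^ 2 * w * (2 * s + t ^ 6 * w), ?_⟩
      linear_combination (k * r + s + t ^ 6 * w) * hk + hs
    exact (hr4 2).dvd_of_dvd_mul_left h1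
  obtain ⟨d1, hd1⟩ : t ^ 4 ∣ k ^ 3 - 3 * k * r + 2 * s := by
    have h1 : t ^ 4 ∣ r ^ 3 * (k ^ 3 - 3 * k * r + 2 * s) := by
      -- r^3 k^3 = (s + t^6 w)^3, r^3 * k * r = r^3 (s + t^6 w)
      refine ⟨s * (A * r + B * t ^ 2) + t ^ 2 * w * (3 * s ^ 2 + 3 * s * t ^ 6 * w + t ^ 12 * w ^ 2)
        - 3 * r ^ 3 * t ^ 2 * w, ?_⟩
      linear_combination ((k * r) ^ 2 + (k * r) * (s + t ^ 6 * w) + (s + t ^ 6 * w) ^ 2 -
        3 * r ^ 3) * hk + s * hs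
    exact (hr4 3).dvd_of_dvd_mul_left h1
  obtain ⟨e1, he1⟩ : t ^ 6 ∣ k ^ 4 - 6 * k ^ 2 * r + 8 * k * s - 3 * r ^ 2 - 4 * A * t ^ 4 := by
    have h1 : t ^ 6 ∣ r ^ 4 * (k ^ 4 - 6 * k ^ 2 * r + 8 * k * s - 3 * r ^ 2 - 4 * A * t ^ 4) := by
      -- modulo `k r = s + t^6 w`
      set K := s + t ^ 6 * w with hK
      have h2 : r ^ 4 * (k ^ 4 - 6 * k ^ 2 * r + 8 * k * s - 3 * r ^ 2 - 4 * A * t ^ 4) =
          K ^ 4 - 6 * K ^ 2 * r ^ 3 + 8 * K * s * r ^ 3 - 3 * r ^ 6 - 4 * A * t ^ 4 * r ^ 4 := by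
        linear_combination (((k * r) ^ 3 + (k * r) ^ 2 * K + (k * r) * K ^ 2 + K ^ 3) -
          6 * r ^ 3 * (k * r + K) + 8 * s * r ^ 3) * hk
      have h3 : s ^ 4 - 6 * s ^ 2 * r ^ 3 + 8 * s * s * r ^ 3 - 3 * r ^ 6 - 4 * A * t ^ 4 * r ^ 4 =
          t ^ 6 * (B * (4 * r ^ 3) + (A * r + B * t ^ 2) * (A * r * t ^ 2 + B * t ^ 4)) := by
        linear_combination (s ^ 2 + 3 * r ^ 3 + A * r * t ^ 4 + B * t ^ 6) * hs
      have h4 : t ^ 6 ∣ (K ^ 4 - 6 * K ^ 2 * r ^ 3 + 8 * K * s * r ^ 3 - 3 * r ^ 6 -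
          4 * A * t ^ 4 * r ^ 4) -
          (s ^ 4 - 6 * s ^ 2 * r ^ 3 + 8 * s * s * r ^ 3 - 3 * r ^ 6 - 4 * A * t ^ 4 * r ^ 4) := by
        refine ⟨w * ((K ^ 3 + K ^ 2 * s + K * s ^ 2 + s ^ 3) - 6 * r ^ 3 * (K + s) +
          8 * s * r ^ 3), ?_⟩
        rw [hK]
        ring
      rw [h2]
      have h5 := dvd_add h4 (Dvd.intro _ h3.symm)
      rw [sub_add_cancel] at h5
      exact h5
    exact (hr6 4).dvd_of_dvd_mul_left h1
  refine ⟨⟨t ^ 2, 4 * k, 6 * t ^ 2 * c1, 4 * d1, e1⟩, 4 * t, ?_, ?_, by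
    exact mul_ne_zero (by norm_num) ht, ?_⟩
  · have h1 : t ^ 4 * (12 * t ^ 2 * e1 - 3 * (4 * k) * (4 * d1) + (6 * t ^ 2 * c1) ^ 2) =
        t ^ 4 * (-48 * A) := by
      linear_combination (-12 : ℤ) * he1 + 48 * k * hd1 -
        36 * (t ^ 4 * c1 + (k ^ 2 - r)) * hc1
    exact mul_left_cancel₀ (pow_ne_zero 4 ht) h1
  · have h1 : t ^ 6 * (72 * t ^ 2 * (6 * t ^ 2 * c1) * e1 + 9 * (4 * k) * (6 * t ^ 2 * c1) *
        (4 * d1) - 27 * t ^ 2 * (4 * d1) ^ 2 - 27 * e1 * (4 * k) ^ 2 - 2 * (6 * t ^ 2 * c1) ^ 3) =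
        t ^ 6 * (-1728 * B) := by
      linear_combination (-432 * (t ^ 6 * e1) - 864 * k * (t ^ 4 * d1) +
        432 * ((t ^ 4 * c1) ^ 2 + (t ^ 4 * c1) * (k ^ 2 - r) + (k ^ 2 - r) ^ 2)) * hc1 +
        (-432 * (k ^ 2 - r) + 432 * k ^ 2) * he1 +
        (-864 * k * (k ^ 2 - r) + 432 * (t ^ 4 * d1 + (k ^ 3 - 3 * k * r + 2 * s))) * hd1 -
        1728 * hs
    exact mul_left_cancel₀ (pow_ne_zero 6 ht) h1
  · unfold zz
    have h1 : (((4 * k) ^ 2 : ℤ) : Alg A B) = AdjoinRoot.of (cub A B) ((4 * k : ℚ) ^ 2) := by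
      rw [← map_intCast (AdjoinRoot.of (cub A B))]
      push_cast
      rfl
    have h2 : (((4 * t) ^ 2 : ℤ) : Alg A B) = AdjoinRoot.of (cub A B) ((4 * t : ℚ) ^ 2) := by
      rw [← map_intCast (AdjoinRoot.of (cub A B))]
      push_cast
      rfl
    have h3 : ((16 * t ^ 2 : ℤ) : Alg A B) = AdjoinRoot.of (cub A B) ((4 * t : ℚ) ^ 2) := by
      rw [← map_intCast (AdjoinRoot.of (cub A B))]
      congr 1
      push_cast
      ring
    show (((4 * k) ^ 2 : ℤ) : Alg A B) -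
      AdjoinRoot.of (cub A B) (8 / 3 * (((t ^ 2 : ℤ) : ℚ) * ((6 * t ^ 2 * c1 : ℤ) : ℚ))) -
      ((16 * t ^ 2 : ℤ) : Alg A B) * th A B = _
    rw [h1, h2, h3, mul_sub, ← map_mul, ← map_sub]
    congr 2
    rw [hx]
    push_cast
    have hc1q : ((k : ℚ) ^ 2 - r) = t ^ 4 * c1 := by exact_mod_cast hc1
    field_simp
    linear_combination (48 : ℚ) * hc1q

end Pool.Agent.L0h45.AR
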