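import Pool.Agent.L0h45.AR.D3b
import Pool.Agent.L0h45.AR.FP
import Pool.Agent.L0h90.AR.Pair
import Pool.Agent.L0h95.AR.EQV
import Pool.Agent.L0h95.AR.MW
import Pool.Agent.Q286.EQ.MW

/-!
# COS: there are at least `2 ^ rank - 5` inequivalent quartic forms without rational roots
-/

set_option autoImplicit false

open Finset Polynomial

namespace Pool.Agent.L0h45.AR

theorem isSquare_cancel {R : Type} [CommRing R] {u c v : R} (h : IsSquare (c ^ 2 * u)) (hv : c * v = 1) :
    IsSquare u := by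
  obtain ⟨s, hs⟩ := h
  refine ⟨v * s, ?_⟩
  have h1 : v * s * (v * s) = v ^ 2 * (s * s) := by ring
  rw [h1, ← hs]
  have h2 : v ^ 2 * (c ^ 2 * u) = (c * v) ^ 2 * u := by ring
  rw [h2, hv]
  ring

theorem unit_int (A B : ℤ) {t : ℤ} (ht : t ≠ 0) : ∃ v : Alg A B, ((t : ℤ) : Alg A B) * v = 1 := by
  refine ⟨AdjoinRoot.of (cub A B) ((t : ℚ)⁻¹), ?_⟩
  have h1 : ((t : ℤ) : Alg A B) = AdjoinRoot.of (cub A B) (t : ℚ) := (map_intCast _ _).symm
  rw [h1, ← map_mul, mul_inv_cancel₀ (by exact_mod_cast ht), map_one]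

theorem sub_I {R : Type} [CommRing R] (F : Q4 R) (p q r s : R) :
    (F.sub p q r s).I = (p * s - q * r) ^ 4 * F.I := by
  simp only [Q4.I, Q4.sub]
  ring

theorem sub_J {R : Type} [CommRing R] (F : Q4 R) (p q r s : R) :
    (F.sub p q r s).J = (p * s - q * r) ^ 6 * F.J := by
  simp only [Q4.J, Q4.sub]
  ring

theorem Eqv.I_eq {F G : Q4 ℤ} (h : Eqv F G) : G.I = F.I := by
  obtain ⟨p, q, r, s, h1, rfl⟩ := h
  rw [sub_I, h1, one_pow, one_mul]

theorem Eqv.J_eq {F G : Q4 ℤ} (h : Eqv F G) : G.J = F.J := by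
  obtain ⟨p, q, r, s, h1, rfl⟩ := h
  rw [sub_J, h1, one_pow, one_mul]

/-- the `x`-coordinate -/
def xc {A B : ℤ} : (crv A B).toAffine.Point → Option ℚ
  | .zero => none
  | .some x _ _ => some x

/-- the point is of order `1` or `2` -/
def Two {A B : ℤ} : (crv A B).toAffine.Point → Prop
  | .zero => True
  | .some _ y _ => y = 0

theorem crv_eq {A B : ℤ} {x y : ℚ} (h : (crv A B).toAffine.Nonsingular x y) :
    y ^ 2 = x ^ 3 + A * x + B := by
  have h1 := (WeierstrassCurve.Affine.equation_iff _ _).mp h.1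
  simp only [crv] at h1
  linear_combination h1

theorem two_inj {A B : ℤ} {P Q : (crv A B).toAffine.Point} (hP : Two P) (hQ : Two Q)
    (h : xc P = xc Q) : P = Q := by
  rcases P with _ | ⟨x, y, hxy⟩
  · rcases Q with _ | ⟨x', y', hxy'⟩
    · rfl
    · exact absurd h (by simp [xc])
  · rcases Q with _ | ⟨x', y', hxy'⟩
    · exact absurd h (by simp [xc])
    · simp only [Two] at hP hQ
      simp only [xc, Option.some.injEq] at h
      subst hP hQ h
      rfl

theorem two_card {A B : ℤ} (S : Finset (crv A B).toAffine.Point) (hS : ∀ P ∈ S, Two P) : S.card ≤ 4 := by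
  classical
  have hne : cub A B ≠ 0 := by
    have hm : ∀ a b : ℚ, (X ^ 3 + C a * X + C b : ℚ[X]) ≠ 0 := by
      intro a b h
      have h1 := congrArg (fun p : ℚ[X] => p.coeff 3) h
      simp [coeff_X, coeff_C] at h1
    exact hm _ _
  have hdeg : (cub A B).natDegree ≤ 3 := by
    unfold cub
    compute_degree
  have h1 : S.card ≤ (insertNone (cub A B).roots.toFinset).card := by
    apply card_le_card_of_injOn (fun P => xc P)
    · intro P hP
      rw [mem_coe] at hP ⊢
      have h2 := hS P hP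
      rcases P with _ | ⟨x, y, hxy⟩
      · simp [xc]
      · simp only [xc, mem_insertNone]
        intro a ha
        rw [Option.mem_some_iff] at ha
        subst ha
        rw [Multiset.mem_toFinset, mem_roots hne, IsRoot.def]
        simp only [Two] at h2
        have h3 := crv_eq hxy
        rw [h2] at h3
        unfold cub
        simp only [eval_add, eval_pow, eval_X, eval_mul, eval_C]
        linarith
    · intro P hP Q hQ h
      exact two_inj (hS P hP) (hS Q hQ) h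
  rw [card_insertNone] at h1
  have h2 : (cub A B).roots.toFinset.card ≤ 3 :=
    (Multiset.toFinset_card_le _).trans ((card_roots' _).trans hdeg)
  omega

/-- **COS** -/
theorem cos : S_COS := by
  classical
  intro A B hΔ
  have hFG : AddGroup.FG (crv A B).toAffine.Point := by
    apply Pool.Agent.Q286.EQ.mordell_weil ℚ (crv A B)
    intro h
    apply hΔ
    have h1 : (crv A B).Δ = -16 * ((4 * A ^ 3 + 27 * B ^ 2 : ℤ) : ℚ) := by
      simp only [crv, WeierstrassCurve.Δ, WeierstrassCurve.b₂, WeierstrassCurve.b₄, WeierstrassCurve.b₆,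
        WeierstrassCurve.b₈]
      push_cast
      ring
    rw [h1] at h
    have h2 : ((4 * A ^ 3 + 27 * B ^ 2 : ℤ) : ℚ) = 0 := by linarith
    exact_mod_cast h2
  obtain ⟨S₀, hS₀, hinc⟩ := Pool.Agent.L0h95.AR.mw (crv A B).toAffine.Point hFG
  -- the points which are doubles
  have hdb : (S₀.filter (fun P => ∃ Q, Q + Q = P)).card ≤ 1 := by
    rw [card_le_one]
    intro P hP P' hP'
    rw [mem_filter] at hP hP'
    obtain ⟨hP1, Q, hQ⟩ := hP
    obtain ⟨hP1', Q', hQ'⟩ := hP'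
    by_contra hne
    apply hinc P hP1 P' hP1' hne (Q - Q')
    rw [← hQ, ← hQ']
    abel
  have htwo : (S₀.filter (fun P => Two P)).card ≤ 4 :=
    two_card _ fun P hP => (mem_filter.mp hP).2
  obtain ⟨S₁, hS₁⟩ : ∃ S₁, S₁ = S₀.filter (fun P => ¬ (∃ Q, Q + Q = P) ∧ ¬ Two P) := ⟨_, rfl⟩
  have hS₁c : S₀.card ≤ S₁.card + 5 := by
    have h1 : S₀ ⊆ S₁ ∪ (S₀.filter (fun P => ∃ Q, Q + Q = P) ∪ S₀.filter (fun P => Two P)) := by
      intro P hP
      rw [mem_union, mem_union, hS₁, mem_filter, mem_filter, mem_filter]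
      tauto
    have h2 := card_le_card h1
    have h3 := card_union_le S₁ (S₀.filter (fun P => ∃ Q, Q + Q = P) ∪ S₀.filter (fun P => Two P))
    have h4 := card_union_le (S₀.filter (fun P => ∃ Q, Q + Q = P)) (S₀.filter (fun P => Two P))
    omega
  -- the forms
  have hform : ∀ P ∈ S₁, ∃ F : Q4 ℤ, ∃ (x y : ℚ) (h : (crv A B).toAffine.Nonsingular x y) (t : ℤ),
      P = .some x y h ∧ y ≠ 0 ∧ F.I = - 48 * A ∧ F.J = - 1728 * B ∧ t ≠ 0 ∧
      zz A B F = ((t ^ 2 : ℤ) : Alg A B) * (AdjoinRoot.of (cub A B) x - th A B) := by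
    intro P hP
    rw [hS₁, mem_filter] at hP
    obtain ⟨-, -, h2⟩ := hP
    rcases P with _ | ⟨x, y, h⟩
    · exact absurd trivial h2
    · obtain ⟨F, t, e1, e2, e3, e4⟩ := fp A B x y (crv_eq h)
      exact ⟨F, x, y, h, t, rfl, h2, e1, e2, e3, e4⟩
  haveI : Nonempty (Q4 ℤ) := ⟨⟨0, 0, 0, 0, 0⟩⟩
  choose! Fm hFm using hform
  have hkey : ∀ P ∈ S₁, ∀ P' ∈ S₁, Eqv (Fm P) (Fm P') → P = P' := by
    intro P hP P' hP' he
    obtain ⟨x, y, h, t, rfl, hy, hI, hJ, ht, hz⟩ := hFm P hP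
    obtain ⟨x', y', h', t', rfl, hy', hI', hJ', ht', hz'⟩ := hFm P' hP'
    by_contra hne
    have h1 := Pool.Agent.L0h95.AR.eqv A B _ _ hI hJ he
    rw [hz, hz'] at h1
    obtain ⟨v, hv⟩ := unit_int A B (mul_ne_zero ht ht')
    have h2 : IsSquare ((AdjoinRoot.of (cub A B) x - th A B) * (AdjoinRoot.of (cub A B) x' - th A B)) := by
      apply isSquare_cancel _ hv
      convert h1 using 1
      push_cast
      ring
    obtain ⟨Q, hQ⟩ := Pool.Agent.L0h90.AR.pair A B hΔ x y x' y' h h' hy hy' h2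
    rw [hS₁, mem_filter] at hP hP'
    exact hinc _ hP.1 _ hP'.1 hne Q hQ
  have hroot : ∀ P ∈ S₁, NoRoot (Fm P) := by
    intro P hP G hG ha
    obtain ⟨x, y, h, t, rfl, hy, hI, hJ, ht, hz⟩ := hFm P hP
    have h1 := Pool.Agent.L0h95.AR.eqv A B _ _ hI hJ hG
    have hGI := hG.I_eq
    have hGJ := hG.J_eq
    have hb : G.b ≠ 0 := by
      intro hb
      rw [hI] at hGI
      rw [hJ] at hGJ
      apply hΔ
      unfold Q4.I at hGI
      unfold Q4.J at hGJ
      rw [ha, hb] at hGI hGJ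
      have e1 : G.c ^ 2 = -48 * A := by linarith
      have e2 : -2 * G.c ^ 3 = -1728 * B := by linarith
      have e3 : 4 * (G.c ^ 2) ^ 3 = (-2 * G.c ^ 3) ^ 2 := by ring
      rw [e1, e2] at e3
      have e4 : (4 * A ^ 3 + 27 * B ^ 2) * 110592 = 0 := by linarith
      rcases mul_eq_zero.mp e4 with h5 | h5
      · exact h5
      · norm_num at h5
    have hzG : zz A B G = ((G.b : ℤ) : Alg A B) ^ 2 := by
      unfold zz
      rw [ha]
      simp
    rw [hz, hzG] at h1
    obtain ⟨v, hv⟩ := unit_int A B (mul_ne_zero ht hb)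
    have h2 : IsSquare (AdjoinRoot.of (cub A B) x - th A B) := by
      apply isSquare_cancel _ hv
      convert h1 using 1
      push_cast
      ring
    obtain ⟨Q, hQ⟩ := Pool.Agent.L0h90.AR.half A B hΔ x y h h2
    rw [hS₁, mem_filter] at hP
    exact hP.2.1 ⟨Q, hQ⟩
  refine ⟨S₁.image Fm, ?_, ?_, ?_⟩
  · rw [card_image_of_injOn, ← hS₀]
    · exact hS₁c
    · intro P hP P' hP' h
      rw [mem_coe] at hP hP'
      apply hkey P hP P' hP'
      rw [h]
      exact Eqv.refl _
  · intro F hF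
    rw [mem_image] at hF
    obtain ⟨P, hP, rfl⟩ := hF
    obtain ⟨x, y, h, t, -, hy, hI, hJ, ht, hz⟩ := hFm P hP
    exact ⟨hI, hJ, hroot P hP⟩
  · intro F hF G hG hne he
    rw [mem_image] at hF hG
    obtain ⟨P, hP, rfl⟩ := hF
    obtain ⟨P', hP', rfl⟩ := hG
    apply hne
    rw [hkey P hP P' hP' he]

end Pool.Agent.L0h45.AR
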