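import Pool.Agent.L0h45.AR.Stm

/-!
# Project AR, module D2: reduction of lattices in the plane (helper71)
-/

set_option autoImplicit false

namespace Pool.Agent.L0h45.AR

namespace RedLat

lemma core {p q r s : ℝ} (h : p * s - q * r = 1) {a b c d : ℝ} (hdet : a * d - b * c = 1)
    {X Y : ℝ} (hN : 1 ≤ X ^ 2 + Y ^ 2) (hX : |X| ≤ 1 / 2)
    (hk : p * b + q * a = X * (p * d + q * c) - Y * (r * d + s * c))
    (hl : r * b + s * a = X * (r * d + s * c) + Y * (p * d + q * c)) :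
    (p * d + q * c) ^ 2 + (r * d + s * c) ^ 2 ≤ (p * b + q * a) ^ 2 + (r * b + s * a) ^ 2 ∧
    ((p * d + q * c) ^ 2 + (r * d + s * c) ^ 2) *
      ((p * b + q * a) ^ 2 + (r * b + s * a) ^ 2) ≤ 4 / 3 := by
  set m := p * d + q * c with hm
  set n := r * d + s * c with hn
  set k := p * b + q * a with hk'
  set l := r * b + s * a with hl'
  have h1 : m * l - n * k = 1 := by
    have : m * l - n * k = (p * s - q * r) * (a * d - b * c) := by
      rw [hm, hn, hk', hl']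
      ring
    rw [this, h, hdet, one_mul]
  have h2 : Y * (m ^ 2 + n ^ 2) = 1 := by
    rw [← h1, hk, hl]
    ring
  have h3 : k ^ 2 + l ^ 2 = (X ^ 2 + Y ^ 2) * (m ^ 2 + n ^ 2) := by
    rw [hk, hl]
    ring
  have hA : 0 ≤ m ^ 2 + n ^ 2 := by positivity
  have hX2 : X ^ 2 ≤ 1 / 4 := by
    have := abs_le.mp hX
    nlinarith [this.1, this.2]
  set A := m ^ 2 + n ^ 2 with hAd
  have h4 : Y ^ 2 * A ^ 2 = 1 := by
    rw [← mul_pow, h2, one_pow]
  have hA2 : A ^ 2 ≤ 4 / 3 := by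
    have hY2 : 3 / 4 ≤ Y ^ 2 := by linarith
    have := mul_le_mul_of_nonneg_right hY2 (sq_nonneg A)
    linarith
  refine ⟨?_, ?_⟩
  · rw [h3]
    nlinarith
  · rw [h3]
    have h5 : A * ((X ^ 2 + Y ^ 2) * A) = X ^ 2 * A ^ 2 + Y ^ 2 * A ^ 2 := by ring
    rw [h5, h4]
    have h6 : X ^ 2 * A ^ 2 ≤ 1 / 4 * (4 / 3) := mul_le_mul hX2 hA2 (sq_nonneg A) (by norm_num)
    linarith

end RedLat

open RedLat in
/-- **D2** -/
theorem d2 : S_D2 := by
  intro p q r s h
  have hD : 0 < p ^ 2 + r ^ 2 := by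
    rcases eq_or_ne p 0 with hp | hp
    · have hr : r ≠ 0 := by
        rintro rfl
        rw [hp] at h
        simp at h
      positivity
    · positivity
  set z : UpperHalfPlane := ⟨⟨(p * q + r * s) / (p ^ 2 + r ^ 2), 1 / (p ^ 2 + r ^ 2)⟩, by
    show 0 < 1 / (p ^ 2 + r ^ 2)
    positivity⟩ with hz
  have hzU : (z : ℂ) * ⟨p, r⟩ = ⟨q, s⟩ := by
    apply Complex.ext
    · show (p * q + r * s) / (p ^ 2 + r ^ 2) * p - 1 / (p ^ 2 + r ^ 2) * r = q
      field_simp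
      linear_combination r * h
    · show (p * q + r * s) / (p ^ 2 + r ^ 2) * r + 1 / (p ^ 2 + r ^ 2) * p = s
      field_simp
      linear_combination (-p) * h
  obtain ⟨g, hg⟩ := ModularGroup.exists_smul_mem_fd z
  set w : UpperHalfPlane := g • z with hw
  have hdet : (g 0 0 : ℤ) * g 1 1 - g 0 1 * g 1 0 = 1 := by
    have := g.det_coe
    rw [Matrix.det_fin_two] at this
    exact this
  have hww : (w : ℂ) * ((g 1 0 : ℤ) * z + (g 1 1 : ℤ)) = (g 0 0 : ℤ) * z + (g 0 1 : ℤ) := by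
    rw [hw, UpperHalfPlane.coe_specialLinearGroup_apply]
    have hne : ((g 1 0 : ℤ) : ℂ) * z + ((g 1 1 : ℤ) : ℂ) ≠ 0 := by
      intro hcon
      have h1 := congrArg Complex.im hcon
      have hzim : (z : ℂ).im ≠ 0 := z.2.ne'
      simp at h1
      rcases h1 with h1 | h1
      · rw [h1] at hcon hdet
        simp at hcon
        rw [hcon] at hdet
        simp at hdet
      · exact hzim h1
    simp only [algebraMap_int_eq, eq_intCast, Complex.ofReal_intCast]
    rw [div_mul_cancel₀ _ hne]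
  have hv : (w : ℂ) * ((g 1 0 : ℤ) * ⟨q, s⟩ + (g 1 1 : ℤ) * ⟨p, r⟩) =
      (g 0 0 : ℤ) * ⟨q, s⟩ + (g 0 1 : ℤ) * ⟨p, r⟩ := by
    rw [← hzU]
    linear_combination (⟨p, r⟩ : ℂ) * hww
  have hre := congrArg Complex.re hv
  have him := congrArg Complex.im hv
  simp at hre him
  have e1 : w.re = (w : ℂ).re := rfl
  have e2 : w.im = (w : ℂ).im := rfl
  rw [e1, e2] at hre him
  obtain ⟨hf1, hf2⟩ := hg
  rw [Complex.normSq_apply] at hf1
  have hX : |(w : ℂ).re| ≤ 1 / 2 := hf2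
  have hcore := core (X := (w : ℂ).re) (Y := (w : ℂ).im) h (a := (g 0 0 : ℤ)) (b := (g 0 1 : ℤ))
    (c := (g 1 0 : ℤ)) (d := (g 1 1 : ℤ)) (by exact_mod_cast hdet) (by nlinarith [hf1]) hX
    (by linear_combination (-1 : ℝ) * hre) (by linear_combination (-1 : ℝ) * him)
  exact ⟨g 1 1, g 0 1, g 1 0, g 0 0, by linarith [hdet], hcore.1, hcore.2⟩

end Pool.Agent.L0h45.AR
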