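import Pool.Agent.L0h45.AR.Stm

/-!
# D3: the number of classes of integral quartic forms with bounded invariants
-/

set_option autoImplicit false

open Finset

namespace Pool.Agent.L0h45.AR

section alg
variable {R : Type} [CommRing R]

theorem Q4.sub_sub (F : Q4 R) (p q r s p' q' r' s' : R) :
    (F.sub p q r s).sub p' q' r' s' =
      F.sub (p * p' + q * r') (p * q' + q * s') (r * p' + s * r') (r * q' + s * s') := by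
  ext
  · simp only [Q4.sub]; ring
  · simp only [Q4.sub]; ring
  · simp only [Q4.sub]; ring
  · simp only [Q4.sub]; ring
  · simp only [Q4.sub]; ring

theorem Q4.sub_one (F : Q4 R) : F.sub 1 0 0 1 = F := by
  ext
  · simp only [Q4.sub]; ring
  · simp only [Q4.sub]; ring
  · simp only [Q4.sub]; ring
  · simp only [Q4.sub]; ring
  · simp only [Q4.sub]; ring

theorem Q4.sub_uni (F : Q4 R) (k : R) : F.sub 1 k 0 1 = ⟨F.a, F.b + 4 * F.a * k,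
    F.c + 3 * F.b * k + 6 * F.a * k ^ 2, F.d + 2 * F.c * k + 3 * F.b * k ^ 2 + 4 * F.a * k ^ 3,
    F.e + F.d * k + F.c * k ^ 2 + F.b * k ^ 3 + F.a * k ^ 4⟩ := by
  ext
  · simp only [Q4.sub]; ring
  · simp only [Q4.sub]; ring
  · simp only [Q4.sub]; ring
  · simp only [Q4.sub]; ring
  · simp only [Q4.sub]; ring

end alg

theorem Q4.toR_sub (F : Q4 ℤ) (p q r s : ℤ) :
    (F.sub p q r s).toR = F.toR.sub (p : ℝ) q r s := by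
  ext
  · simp only [Q4.sub, Q4.toR]; push_cast; ring
  · simp only [Q4.sub, Q4.toR]; push_cast; ring
  · simp only [Q4.sub, Q4.toR]; push_cast; ring
  · simp only [Q4.sub, Q4.toR]; push_cast; ring
  · simp only [Q4.sub, Q4.toR]; push_cast; ring

theorem Eqv.refl (F : Q4 ℤ) : Eqv F F := ⟨1, 0, 0, 1, by norm_num, F.sub_one.symm⟩

theorem Eqv.symm {F G : Q4 ℤ} (h : Eqv F G) : Eqv G F := by
  obtain ⟨p, q, r, s, h1, rfl⟩ := h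
  refine ⟨s, -q, -r, p, by linarith, ?_⟩
  rw [Q4.sub_sub]
  have e1 : p * s + q * -r = 1 := by linarith
  have e2 : p * -q + q * p = 0 := by ring
  have e3 : r * s + s * -r = 0 := by ring
  have e4 : r * -q + s * p = 1 := by linarith
  rw [e1, e2, e3, e4, Q4.sub_one]

theorem Eqv.trans {F G H : Q4 ℤ} (h : Eqv F G) (h' : Eqv G H) : Eqv F H := by
  obtain ⟨p, q, r, s, h1, rfl⟩ := h
  obtain ⟨p', q', r', s', h1', rfl⟩ := h'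
  refine ⟨_, _, _, _, ?_, Q4.sub_sub F p q r s p' q' r' s'⟩
  linear_combination h1' * (p * s - q * r) + h1

theorem Eqv.uni (F : Q4 ℤ) (k : ℤ) : Eqv F (F.sub 1 k 0 1) := ⟨1, k, 0, 1, by norm_num, rfl⟩

theorem NoRoot.eqv {F G : Q4 ℤ} (h : NoRoot F) (h' : Eqv F G) : NoRoot G :=
  fun H hH => h H (h'.trans hH)

/-- the box number `j` -/
structure Box (L : ℝ) (j : ℕ) (F : Q4 ℤ) : Prop where
  a : |(F.a : ℝ)| * 16 ^ j ≤ L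
  b : |(F.b : ℝ)| * 4 ^ j ≤ L
  c : |(F.c : ℝ)| ≤ L
  d : |(F.d : ℝ)| ≤ L * 4 ^ j
  e : |(F.e : ℝ)| ≤ L * 16 ^ j

theorem Box.uni {L : ℝ} {j : ℕ} {F : Q4 ℤ} (h : Box L j F) {k : ℕ} (hk : k < 4 ^ j) :
    Box (10 * L) j (F.sub 1 k 0 1) := by
  obtain ⟨ha, hb, hc, hd, he⟩ := h
  have hL : 0 ≤ L := (abs_nonneg _).trans hc
  obtain ⟨w, hw⟩ : ∃ w : ℝ, w = 4 ^ j := ⟨_, rfl⟩
  have hw16 : (16 : ℝ) ^ j = w ^ 2 := by
    rw [hw, ← pow_mul, mul_comm, pow_mul]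
    norm_num
  rw [hw16] at ha he
  rw [← hw] at hb hd
  have hw1 : 1 ≤ w := by rw [hw]; exact one_le_pow₀ (by norm_num)
  have hw0 : 0 < w := by linarith
  obtain ⟨x, hx⟩ : ∃ x : ℝ, x = (k : ℝ) := ⟨_, rfl⟩
  have hx0 : 0 ≤ x := by rw [hx]; positivity
  have hxw : x ≤ w := by
    rw [hx, hw]
    exact_mod_cast hk.le
  have a1 : |(F.a : ℝ)| * w ^ 2 ≤ L := ha
  have a0 : 0 ≤ |(F.a : ℝ)| := abs_nonneg _
  have b0 : 0 ≤ |(F.b : ℝ)| := abs_nonneg _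
  have c0 : 0 ≤ |(F.c : ℝ)| := abs_nonneg _
  have d0 : 0 ≤ |(F.d : ℝ)| := abs_nonneg _
  have x1 : x * 1 ≤ w := by linarith
  have x2 : x ^ 2 ≤ w ^ 2 := by gcongr
  have x3 : x ^ 3 ≤ w ^ 3 := by gcongr
  have x4 : x ^ 4 ≤ w ^ 4 := by gcongr
  -- monomials
  have m_a1 : |(F.a : ℝ) * x| * w ≤ L := by
    rw [abs_mul, abs_of_nonneg hx0]
    calc |(F.a : ℝ)| * x * w ≤ |(F.a : ℝ)| * w * w := by gcongr
      _ = |(F.a : ℝ)| * w ^ 2 := by ring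
      _ ≤ L := a1
  have m_a2 : |(F.a : ℝ) * x ^ 2| ≤ L := by
    rw [abs_mul, abs_of_nonneg (by positivity : 0 ≤ x ^ 2)]
    calc |(F.a : ℝ)| * x ^ 2 ≤ |(F.a : ℝ)| * w ^ 2 := by gcongr
      _ ≤ L := a1
  have m_a3 : |(F.a : ℝ) * x ^ 3| ≤ L * w := by
    rw [abs_mul, abs_of_nonneg (by positivity : 0 ≤ x ^ 3)]
    calc |(F.a : ℝ)| * x ^ 3 ≤ |(F.a : ℝ)| * w ^ 3 := by gcongr
      _ = |(F.a : ℝ)| * w ^ 2 * w := by ring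
      _ ≤ L * w := by gcongr
  have m_a4 : |(F.a : ℝ) * x ^ 4| ≤ L * w ^ 2 := by
    rw [abs_mul, abs_of_nonneg (by positivity : 0 ≤ x ^ 4)]
    calc |(F.a : ℝ)| * x ^ 4 ≤ |(F.a : ℝ)| * w ^ 4 := by gcongr
      _ = |(F.a : ℝ)| * w ^ 2 * w ^ 2 := by ring
      _ ≤ L * w ^ 2 := by gcongr
  have m_b1 : |(F.b : ℝ) * x| ≤ L := by
    rw [abs_mul, abs_of_nonneg hx0]
    calc |(F.b : ℝ)| * x ≤ |(F.b : ℝ)| * w := by gcongr
      _ ≤ L := hb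
  have m_b2 : |(F.b : ℝ) * x ^ 2| ≤ L * w := by
    rw [abs_mul, abs_of_nonneg (by positivity : 0 ≤ x ^ 2)]
    calc |(F.b : ℝ)| * x ^ 2 ≤ |(F.b : ℝ)| * w ^ 2 := by gcongr
      _ = |(F.b : ℝ)| * w * w := by ring
      _ ≤ L * w := by gcongr
  have m_b3 : |(F.b : ℝ) * x ^ 3| ≤ L * w ^ 2 := by
    rw [abs_mul, abs_of_nonneg (by positivity : 0 ≤ x ^ 3)]
    calc |(F.b : ℝ)| * x ^ 3 ≤ |(F.b : ℝ)| * w ^ 3 := by gcongr
      _ = |(F.b : ℝ)| * w * w ^ 2 := by ring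
      _ ≤ L * w ^ 2 := by gcongr
  have m_c1 : |(F.c : ℝ) * x| ≤ L * w := by
    rw [abs_mul, abs_of_nonneg hx0]
    gcongr
  have m_c2 : |(F.c : ℝ) * x ^ 2| ≤ L * w ^ 2 := by
    rw [abs_mul, abs_of_nonneg (by positivity : 0 ≤ x ^ 2)]
    gcongr
  have m_d1 : |(F.d : ℝ) * x| ≤ L * w ^ 2 := by
    rw [abs_mul, abs_of_nonneg hx0]
    calc |(F.d : ℝ)| * x ≤ (L * w) * w := by gcongr
      _ = L * w ^ 2 := by ring
  have hLw : 0 ≤ L * w := by positivity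
  rw [Q4.sub_uni]
  refine ⟨?_, ?_, ?_, ?_, ?_⟩
  · rw [hw16]
    linarith
  · rw [← hw]
    push_cast
    rw [← hx]
    have h1 := abs_add_le (F.b : ℝ) (4 * F.a * x)
    have h2 : |4 * (F.a : ℝ) * x| = 4 * |(F.a : ℝ) * x| := by
      rw [mul_assoc, abs_mul, abs_of_pos (by norm_num : (0 : ℝ) < 4)]
    rw [h2] at h1
    calc _ ≤ (|(F.b : ℝ)| + 4 * |(F.a : ℝ) * x|) * w := by gcongr
      _ = |(F.b : ℝ)| * w + 4 * (|(F.a : ℝ) * x| * w) := by ring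
      _ ≤ 10 * L := by linarith
  · push_cast
    rw [← hx]
    rw [abs_le] at m_b1 m_a2 hc ⊢
    constructor <;> nlinarith
  · push_cast
    rw [← hx, ← hw]
    rw [abs_le] at hd m_c1 m_b2 m_a3 ⊢
    constructor <;> nlinarith
  · push_cast
    rw [← hx, hw16]
    rw [abs_le] at he m_d1 m_c2 m_b3 m_a4 ⊢
    constructor <;> nlinarith

section bounds
variable {N : ℝ} {G : Q4 ℝ} {x₁ y₁ x₂ y₂ u w : ℝ}

theorem mono {g : ℝ} {N : ℝ} (c : ℝ) (hg : |g| ≤ N) (hc : 0 ≤ c) {x y z t X Y Z V : ℝ} (hx : |x| ≤ X)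
    (hy : |y| ≤ Y) (hz : |z| ≤ Z) (ht : |t| ≤ V) :
    -(c * (N * (X * Y * Z * V))) ≤ c * (g * (x * y * z * t)) ∧
      c * (g * (x * y * z * t)) ≤ c * (N * (X * Y * Z * V)) := by
  have hN : 0 ≤ N := (abs_nonneg _).trans hg
  have hX : 0 ≤ X := (abs_nonneg _).trans hx
  have hY : 0 ≤ Y := (abs_nonneg _).trans hy
  have hZ : 0 ≤ Z := (abs_nonneg _).trans hz
  have hV : 0 ≤ V := (abs_nonneg _).trans ht
  rw [← abs_le, abs_mul, abs_mul, abs_mul, abs_mul, abs_mul, abs_of_nonneg hc]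
  gcongr

theorem bnd_a (ga : |G.a| ≤ N) (gb : |G.b| ≤ N) (gc : |G.c| ≤ N) (gd : |G.d| ≤ N) (ge : |G.e| ≤ N)
    (hX1 : |x₁| ≤ u) (hY1 : |y₁| ≤ u) :
    |(G.sub x₁ x₂ y₁ y₂).a| ≤ 5 * (N * u ^ 4) := by
  have t1 := mono 1 ga (by norm_num) hX1 hX1 hX1 hX1
  have t2 := mono 1 gb (by norm_num) hX1 hX1 hX1 hY1
  have t3 := mono 1 gc (by norm_num) hX1 hX1 hY1 hY1
  have t4 := mono 1 gd (by norm_num) hX1 hY1 hY1 hY1
  have t5 := mono 1 ge (by norm_num) hY1 hY1 hY1 hY1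
  simp only [Q4.sub]
  rw [abs_le]
  constructor <;> linarith only [t1.1, t1.2, t2.1, t2.2, t3.1, t3.2, t4.1, t4.2, t5.1, t5.2]

theorem bnd_b (ga : |G.a| ≤ N) (gb : |G.b| ≤ N) (gc : |G.c| ≤ N) (gd : |G.d| ≤ N) (ge : |G.e| ≤ N)
    (hX1 : |x₁| ≤ u) (hY1 : |y₁| ≤ u) (hX2 : |x₂| ≤ w) (hY2 : |y₂| ≤ w) :
    |(G.sub x₁ x₂ y₁ y₂).b| ≤ 20 * (N * (u ^ 3 * w)) := by
  have t1 := mono 4 ga (by norm_num) hX1 hX1 hX1 hX2
  have t2 := mono 1 gb (by norm_num) hX1 hX1 hX1 hY2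
  have t3 := mono 3 gb (by norm_num) hX1 hX1 hY1 hX2
  have t4 := mono 2 gc (by norm_num) hX1 hY1 hY1 hX2
  have t5 := mono 2 gc (by norm_num) hX1 hX1 hY1 hY2
  have t6 := mono 1 gd (by norm_num) hY1 hY1 hY1 hX2
  have t7 := mono 3 gd (by norm_num) hX1 hY1 hY1 hY2
  have t8 := mono 4 ge (by norm_num) hY1 hY1 hY1 hY2
  simp only [Q4.sub]
  rw [abs_le]
  constructor <;> linarith only [t1.1, t1.2, t2.1, t2.2, t3.1, t3.2, t4.1, t4.2, t5.1, t5.2, t6.1, t6.2, t7.1, t7.2, t8.1, t8.2]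

theorem bnd_c (ga : |G.a| ≤ N) (gb : |G.b| ≤ N) (gc : |G.c| ≤ N) (gd : |G.d| ≤ N) (ge : |G.e| ≤ N)
    (hX1 : |x₁| ≤ u) (hY1 : |y₁| ≤ u) (hX2 : |x₂| ≤ w) (hY2 : |y₂| ≤ w) :
    |(G.sub x₁ x₂ y₁ y₂).c| ≤ 30 * (N * (u ^ 2 * w ^ 2)) := by
  have t1 := mono 6 ga (by norm_num) hX1 hX1 hX2 hX2
  have t2 := mono 3 gb (by norm_num) hX1 hX1 hX2 hY2
  have t3 := mono 3 gb (by norm_num) hX1 hY1 hX2 hX2
  have t4 := mono 1 gc (by norm_num) hX1 hX1 hY2 hY2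
  have t5 := mono 4 gc (by norm_num) hX1 hY1 hX2 hY2
  have t6 := mono 1 gc (by norm_num) hY1 hY1 hX2 hX2
  have t7 := mono 3 gd (by norm_num) hX1 hY1 hY2 hY2
  have t8 := mono 3 gd (by norm_num) hY1 hY1 hX2 hY2
  have t9 := mono 6 ge (by norm_num) hY1 hY1 hY2 hY2
  simp only [Q4.sub]
  rw [abs_le]
  constructor <;> linarith only [t1.1, t1.2, t2.1, t2.2, t3.1, t3.2, t4.1, t4.2, t5.1, t5.2, t6.1, t6.2, t7.1, t7.2, t8.1, t8.2, t9.1, t9.2]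

theorem bnd_d (ga : |G.a| ≤ N) (gb : |G.b| ≤ N) (gc : |G.c| ≤ N) (gd : |G.d| ≤ N) (ge : |G.e| ≤ N)
    (hX1 : |x₁| ≤ u) (hY1 : |y₁| ≤ u) (hX2 : |x₂| ≤ w) (hY2 : |y₂| ≤ w) :
    |(G.sub x₁ x₂ y₁ y₂).d| ≤ 20 * (N * (u * w ^ 3)) := by
  have t1 := mono 4 ga (by norm_num) hX1 hX2 hX2 hX2
  have t2 := mono 1 gb (by norm_num) hY1 hX2 hX2 hX2
  have t3 := mono 3 gb (by norm_num) hX1 hX2 hX2 hY2
  have t4 := mono 2 gc (by norm_num) hX1 hX2 hY2 hY2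
  have t5 := mono 2 gc (by norm_num) hY1 hX2 hX2 hY2
  have t6 := mono 1 gd (by norm_num) hX1 hY2 hY2 hY2
  have t7 := mono 3 gd (by norm_num) hY1 hX2 hY2 hY2
  have t8 := mono 4 ge (by norm_num) hY1 hY2 hY2 hY2
  simp only [Q4.sub]
  rw [abs_le]
  constructor <;> linarith only [t1.1, t1.2, t2.1, t2.2, t3.1, t3.2, t4.1, t4.2, t5.1, t5.2, t6.1, t6.2, t7.1, t7.2, t8.1, t8.2]

theorem bnd_e (ga : |G.a| ≤ N) (gb : |G.b| ≤ N) (gc : |G.c| ≤ N) (gd : |G.d| ≤ N) (ge : |G.e| ≤ N)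
    (hX2 : |x₂| ≤ w) (hY2 : |y₂| ≤ w) :
    |(G.sub x₁ x₂ y₁ y₂).e| ≤ 5 * (N * w ^ 4) := by
  have t1 := mono 1 ga (by norm_num) hX2 hX2 hX2 hX2
  have t2 := mono 1 gb (by norm_num) hX2 hX2 hX2 hY2
  have t3 := mono 1 gc (by norm_num) hX2 hX2 hY2 hY2
  have t4 := mono 1 gd (by norm_num) hX2 hY2 hY2 hY2
  have t5 := mono 1 ge (by norm_num) hY2 hY2 hY2 hY2
  simp only [Q4.sub]
  rw [abs_le]
  constructor <;> linarith only [t1.1, t1.2, t2.1, t2.2, t3.1, t3.2, t4.1, t4.2, t5.1, t5.2]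

end bounds

/-- reduction of one form -/
theorem reduce (h1 : S_D1) (h2 : S_D2) : ∃ C : ℝ, 0 < C ∧ ∀ T : ℝ, 1 ≤ T → ∀ F : Q4 ℤ,
    0 < |(F.I : ℝ)| ^ 3 + (F.J : ℝ) ^ 2 → |(F.I : ℝ)| ^ 3 + (F.J : ℝ) ^ 2 ≤ T ^ 6 →
    ∃ G : Q4 ℤ, Eqv F G ∧ ∃ j : ℕ, Box (C * T) j G := by
  obtain ⟨C₁, hC₁, H⟩ := h1
  obtain ⟨C₂, hC₂⟩ : ∃ C₂, C₂ = max 1 C₁ := ⟨_, rfl⟩
  have hC₂1 : 1 ≤ C₂ := by rw [hC₂]; exact le_max_left _ _
  have hC₂2 : C₁ ≤ C₂ := by rw [hC₂]; exact le_max_right _ _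
  refine ⟨320 * C₂, by linarith, ?_⟩
  intro T hT F hF0 hFT
  have hT0 : 0 < T := by linarith
  have eI : (F.toR).I = (F.I : ℝ) := by
    simp only [Q4.I, Q4.toR]
    push_cast
    ring
  have eJ : (F.toR).J = (F.J : ℝ) := by
    simp only [Q4.J, Q4.toR]
    push_cast
    ring
  obtain ⟨p, q, r, s, hdet, hN⟩ := H F.toR (by rw [eI, eJ]; exact hF0)
  rw [eI, eJ] at hN
  obtain ⟨G, hG⟩ : ∃ G, G = F.toR.sub p q r s := ⟨_, rfl⟩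
  rw [← hG] at hN
  obtain ⟨N, hNN⟩ : ∃ N, N = C₂ * T := ⟨_, rfl⟩
  have hN0 : 0 < N := by rw [hNN]; positivity
  have hGN : G.N ≤ N := by
    have h3 : G.N ^ 6 ≤ N ^ 6 := by
      calc G.N ^ 6 ≤ C₁ * (|(F.I : ℝ)| ^ 3 + (F.J : ℝ) ^ 2) := hN
        _ ≤ C₂ * T ^ 6 := by gcongr
        _ ≤ C₂ ^ 6 * T ^ 6 := by
            have : C₂ ≤ C₂ ^ 6 := le_self_pow₀ hC₂1 (by norm_num)
            gcongr
        _ = N ^ 6 := by rw [hNN]; ring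
    exact le_of_pow_le_pow_left₀ (by norm_num) hN0.le h3
  have gN : |G.a| ≤ N ∧ |G.b| ≤ N ∧ |G.c| ≤ N ∧ |G.d| ≤ N ∧ |G.e| ≤ N := by
    unfold Q4.N at hGN
    rw [max_le_iff, max_le_iff, max_le_iff, max_le_iff] at hGN
    exact ⟨hGN.1, hGN.2.1, hGN.2.2.1, hGN.2.2.2.1, hGN.2.2.2.2⟩
  obtain ⟨ga, gb, gc, gd, ge⟩ := gN
  obtain ⟨p', q', r', s', hdet', hv1, hv2⟩ := h2 s (-q) (-r) p (by linarith)
  have hdetR : (p' : ℝ) * s' - q' * r' = 1 := by exact_mod_cast hdet'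
  obtain ⟨x₁, hx₁⟩ : ∃ x₁ : ℝ, x₁ = s * p' + -q * r' := ⟨_, rfl⟩
  obtain ⟨y₁, hy₁⟩ : ∃ y₁ : ℝ, y₁ = -r * p' + p * r' := ⟨_, rfl⟩
  obtain ⟨x₂, hx₂⟩ : ∃ x₂ : ℝ, x₂ = s * q' + -q * s' := ⟨_, rfl⟩
  obtain ⟨y₂, hy₂⟩ : ∃ y₂ : ℝ, y₂ = -r * q' + p * s' := ⟨_, rfl⟩
  rw [← hx₁, ← hx₂, ← hy₁, ← hy₂] at hv1 hv2
  have hd1 : x₁ * y₂ - x₂ * y₁ = 1 := by
    rw [hx₁, hx₂, hy₁, hy₂]
    linear_combination (p * s - q * r) * hdetR + hdet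
  obtain ⟨u, hu⟩ : ∃ u, u = √(x₁ ^ 2 + y₁ ^ 2) := ⟨_, rfl⟩
  obtain ⟨w, hw⟩ : ∃ w, w = √(x₂ ^ 2 + y₂ ^ 2) := ⟨_, rfl⟩
  have hu2 : u ^ 2 = x₁ ^ 2 + y₁ ^ 2 := by rw [hu]; exact Real.sq_sqrt (by positivity)
  have hw2 : w ^ 2 = x₂ ^ 2 + y₂ ^ 2 := by rw [hw]; exact Real.sq_sqrt (by positivity)
  have hu00 : 0 ≤ u := by rw [hu]; exact Real.sqrt_nonneg _
  have hw00 : 0 ≤ w := by rw [hw]; exact Real.sqrt_nonneg _
  rw [← hu2, ← hw2] at hv1 hv2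
  have hu0 : 0 < u := by
    rcases hu00.lt_or_eq with h | h
    · exact h
    · exfalso
      rw [← h] at hu2
      have h3 : x₁ = 0 := by nlinarith [sq_nonneg x₁, sq_nonneg y₁]
      have h4 : y₁ = 0 := by nlinarith [sq_nonneg x₁, sq_nonneg y₁]
      rw [h3, h4] at hd1
      linarith
  have huw : u * w ≤ 2 := by
    have h3 : (u * w) ^ 2 ≤ 2 ^ 2 := by
      calc (u * w) ^ 2 = u ^ 2 * w ^ 2 := by ring
        _ ≤ 4 / 3 := hv2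
        _ ≤ 2 ^ 2 := by norm_num
    exact le_of_pow_le_pow_left₀ (by norm_num) (by norm_num) h3
  have hule : u ≤ w := le_of_pow_le_pow_left₀ (by norm_num) hw00 hv1
  have hw0 : 0 < w := by linarith
  have hu2' : u ^ 2 ≤ 2 := by nlinarith
  -- coordinates
  have hX1 : |x₁| ≤ u := Real.abs_le_sqrt (by nlinarith [sq_nonneg y₁]) |>.trans hu.ge
  have hY1 : |y₁| ≤ u := Real.abs_le_sqrt (by nlinarith [sq_nonneg x₁]) |>.trans hu.ge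
  have hX2 : |x₂| ≤ w := Real.abs_le_sqrt (by nlinarith [sq_nonneg y₂]) |>.trans hw.ge
  have hY2 : |y₂| ≤ w := Real.abs_le_sqrt (by nlinarith [sq_nonneg x₂]) |>.trans hw.ge
  -- the form
  refine ⟨F.sub p' q' r' s', ⟨p', q', r', s', hdet', rfl⟩, ?_⟩
  have hform : (F.sub p' q' r' s').toR = G.sub x₁ x₂ y₁ y₂ := by
    rw [hG, Q4.sub_sub, Q4.toR_sub]
    have e1 : p * x₁ + q * y₁ = p' := by
      rw [hx₁, hy₁]; linear_combination (p' : ℝ) * hdet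
    have e2 : p * x₂ + q * y₂ = q' := by
      rw [hx₂, hy₂]; linear_combination (q' : ℝ) * hdet
    have e3 : r * x₁ + s * y₁ = r' := by
      rw [hx₁, hy₁]; linear_combination (r' : ℝ) * hdet
    have e4 : r * x₂ + s * y₂ = s' := by
      rw [hx₂, hy₂]; linear_combination (s' : ℝ) * hdet
    rw [e1, e2, e3, e4]
  obtain ⟨j, hj1, hj2⟩ : ∃ j : ℕ, 2 < u ^ 2 * 4 ^ (j + 1) ∧ u ^ 2 * 4 ^ j ≤ 2 := by
    have hex : ∃ n : ℕ, 2 < u ^ 2 * 4 ^ n := by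
      obtain ⟨n, hn⟩ := pow_unbounded_of_one_lt (2 / u ^ 2) (by norm_num : (1 : ℝ) < 4)
      refine ⟨n, ?_⟩
      rw [div_lt_iff₀ (by positivity)] at hn
      linarith
    classical
    have h3 := Nat.find_spec hex
    have h4 : Nat.find hex ≠ 0 := by
      intro h0
      rw [h0] at h3
      norm_num at h3
      linarith
    obtain ⟨j, hj⟩ := Nat.exists_eq_succ_of_ne_zero h4
    refine ⟨j, ?_, ?_⟩
    · rw [hj] at h3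
      exact h3
    · have := Nat.find_min hex (m := j) (by omega)
      exact not_lt.mp this
  obtain ⟨W, hW⟩ : ∃ W : ℝ, W = 4 ^ j := ⟨_, rfl⟩
  have hW16 : (16 : ℝ) ^ j = W ^ 2 := by
    rw [hW, ← pow_mul, mul_comm, pow_mul]
    norm_num
  have hW0 : 0 < W := by rw [hW]; positivity
  rw [pow_succ (4 : ℝ) j, ← hW] at hj1
  rw [← hW] at hj2
  -- hj1 : 2 < u^2 * (W*4), hj2 : u^2 * W ≤ 2
  have b1 : ∀ x : ℝ, |x| ≤ u → ∀ y : ℝ, |y| ≤ u → |x * y| ≤ u ^ 2 := by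
    intro x hx y hy
    rw [abs_mul, sq]
    gcongr
  refine ⟨j, ?_⟩
  have ea : ((F.sub p' q' r' s').a : ℝ) = (G.sub x₁ x₂ y₁ y₂).a := by rw [← hform]; rfl
  have eb : ((F.sub p' q' r' s').b : ℝ) = (G.sub x₁ x₂ y₁ y₂).b := by rw [← hform]; rfl
  have ec : ((F.sub p' q' r' s').c : ℝ) = (G.sub x₁ x₂ y₁ y₂).c := by rw [← hform]; rfl
  have ed : ((F.sub p' q' r' s').d : ℝ) = (G.sub x₁ x₂ y₁ y₂).d := by rw [← hform]; rfl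
  have ee : ((F.sub p' q' r' s').e : ℝ) = (G.sub x₁ x₂ y₁ y₂).e := by rw [← hform]; rfl
  have ha := bnd_a ga gb gc gd ge hX1 hY1 (x₂ := x₂) (y₂ := y₂)
  have hb := bnd_b ga gb gc gd ge hX1 hY1 hX2 hY2
  have hc := bnd_c ga gb gc gd ge hX1 hY1 hX2 hY2
  have hd := bnd_d ga gb gc gd ge hX1 hY1 hX2 hY2
  have he := bnd_e ga gb gc gd ge hX2 hY2 (x₁ := x₁) (y₁ := y₁)
  have eL : 320 * C₂ * T = 320 * N := by rw [hNN]; ring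
  have hwW : w ^ 2 ≤ 8 * W := by
    -- w² u² ≤ 4, and 2 < 4 u² W
    have h3 : u ^ 2 * w ^ 2 ≤ u ^ 2 * (8 * W) := by
      have h4 : u ^ 2 * w ^ 2 ≤ 4 := by linarith
      nlinarith
    exact le_of_mul_le_mul_left h3 (by positivity)
  rw [eL]
  refine ⟨?_, ?_, ?_, ?_, ?_⟩
  · rw [ea, hW16]
    calc _ ≤ 5 * (N * u ^ 4) * W ^ 2 := by gcongr
      _ = 5 * (N * (u ^ 2 * W) ^ 2) := by ring
      _ ≤ 5 * (N * 2 ^ 2) := by gcongr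
      _ ≤ 320 * N := by linarith
  · rw [eb, ← hW]
    calc _ ≤ 20 * (N * (u ^ 3 * w)) * W := by gcongr
      _ = 20 * (N * ((u * w) * (u ^ 2 * W))) := by ring
      _ ≤ 20 * (N * (2 * 2)) := by gcongr
      _ ≤ 320 * N := by linarith
  · rw [ec]
    calc _ ≤ 30 * (N * (u ^ 2 * w ^ 2)) := hc
      _ ≤ 30 * (N * (4 / 3)) := by gcongr
      _ ≤ 320 * N := by linarith
  · rw [ed, ← hW]
    calc _ ≤ 20 * (N * (u * w ^ 3)) := hd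
      _ = 20 * (N * ((u * w) * w ^ 2)) := by ring
      _ ≤ 20 * (N * (2 * (8 * W))) := by gcongr
      _ = 320 * N * W := by ring
  · rw [ee, hW16]
    calc _ ≤ 5 * (N * w ^ 4) := he
      _ = 5 * (N * (w ^ 2) ^ 2) := by ring
      _ ≤ 5 * (N * (8 * W) ^ 2) := by gcongr
      _ = 320 * N * W ^ 2 := by ring

end Pool.Agent.L0h45.AR
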