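import Pool.Agent.L0h45.AR.D3

/-!
# D3: counting
-/

set_option autoImplicit false

open Finset

namespace Pool.Agent.L0h45.AR

/-- the integers of absolute value at most `x` -/
noncomputable def iv (x : ℝ) : Finset ℤ := Icc (-⌊x⌋) ⌊x⌋

theorem mem_iv {x : ℝ} {n : ℤ} : n ∈ iv x ↔ |(n : ℝ)| ≤ x := by
  unfold iv
  rw [mem_Icc, abs_le, Int.le_floor]
  constructor
  · rintro ⟨h1, h2⟩
    refine ⟨?_, h2⟩
    have h3 : ((-n : ℤ) : ℝ) ≤ x := Int.le_floor.mp (by omega)
    push_cast at h3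
    linarith
  · rintro ⟨h1, h2⟩
    refine ⟨?_, h2⟩
    have h3 : -n ≤ ⌊x⌋ := Int.le_floor.mpr (by push_cast; linarith)
    omega

theorem iv_card {x : ℝ} (hx : 1 ≤ x) : ((iv x).card : ℝ) ≤ 3 * x := by
  unfold iv
  rw [Int.card_Icc]
  have h1 : 0 ≤ ⌊x⌋ := Int.floor_nonneg.mpr (by linarith)
  have h2 : (⌊x⌋ : ℝ) ≤ x := Int.floor_le x
  have h3 : ((⌊x⌋ + 1 - -⌊x⌋).toNat : ℤ) = ⌊x⌋ + 1 - -⌊x⌋ := Int.toNat_of_nonneg (by omega)
  have h4 : (((⌊x⌋ + 1 - -⌊x⌋).toNat : ℤ) : ℝ) = ((⌊x⌋ + 1 - -⌊x⌋ : ℤ) : ℝ) := by rw [h3]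
  push_cast at h4
  push_cast
  rw [h4]
  linarith

open Classical in
/-- the forms in a box -/
noncomputable def boxF (L : ℝ) (j : ℕ) : Finset (Q4 ℤ) :=
  ((iv (L / 16 ^ j) ×ˢ iv (L / 4 ^ j)) ×ˢ (iv L ×ˢ (iv (L * 4 ^ j) ×ˢ iv (L * 16 ^ j)))).image
    (fun z => ⟨z.1.1, z.1.2, z.2.1, z.2.2.1, z.2.2.2⟩)

theorem mem_boxF {L : ℝ} {j : ℕ} {F : Q4 ℤ} (h : Box L j F) : F ∈ boxF L j := by
  classical
  unfold boxF
  rw [mem_image]
  refine ⟨((F.a, F.b), (F.c, (F.d, F.e))), ?_, rfl⟩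
  rw [mem_product, mem_product, mem_product, mem_product]
  refine ⟨⟨?_, ?_⟩, ?_, ?_, ?_⟩
  · rw [mem_iv, le_div_iff₀ (by positivity)]
    exact h.a
  · rw [mem_iv, le_div_iff₀ (by positivity)]
    exact h.b
  · rw [mem_iv]
    exact h.c
  · rw [mem_iv]
    exact h.d
  · rw [mem_iv]
    exact h.e

theorem boxF_card {L : ℝ} {j : ℕ} (hL : (16 : ℝ) ^ j ≤ L) : ((boxF L j).card : ℝ) ≤ 243 * L ^ 5 := by
  classical
  have h0 : (1 : ℝ) ≤ 4 ^ j := one_le_pow₀ (by norm_num)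
  have h16 : (16 : ℝ) ^ j = 4 ^ j * 4 ^ j := by
    rw [← mul_pow]
    norm_num
  obtain ⟨w, hw⟩ : ∃ w : ℝ, w = 4 ^ j := ⟨_, rfl⟩
  have hL0 : 0 < L := lt_of_lt_of_le (by positivity) hL
  have h1 : ((boxF L j).card : ℝ) ≤ (((iv (L / 16 ^ j)).card * (iv (L / 4 ^ j)).card *
      ((iv L).card * ((iv (L * 4 ^ j)).card * (iv (L * 16 ^ j)).card)) : ℕ) : ℝ) := by
    unfold boxF
    have := card_image_le (s := (iv (L / 16 ^ j) ×ˢ iv (L / 4 ^ j)) ×ˢ
      (iv L ×ˢ (iv (L * 4 ^ j) ×ˢ iv (L * 16 ^ j))))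
      (f := fun z : (ℤ × ℤ) × (ℤ × (ℤ × ℤ)) => (⟨z.1.1, z.1.2, z.2.1, z.2.2.1, z.2.2.2⟩ : Q4 ℤ))
    rw [card_product, card_product, card_product, card_product] at this
    exact_mod_cast this
  refine h1.trans ?_
  push_cast
  rw [h16, ← hw]
  rw [h16, ← hw] at hL
  rw [← hw] at h0
  have hw0 : 0 < w := by linarith
  have i1 : ((iv (L / (w * w))).card : ℝ) ≤ 3 * (L / (w * w)) :=
    iv_card (by rw [le_div_iff₀ (by positivity)]; linarith)
  have i2 : ((iv (L / w)).card : ℝ) ≤ 3 * (L / w) :=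
    iv_card (by rw [le_div_iff₀ (by positivity)]; nlinarith)
  have hL1 : 1 ≤ L := by nlinarith
  have i3 : ((iv L).card : ℝ) ≤ 3 * L := iv_card hL1
  have i4 : ((iv (L * w)).card : ℝ) ≤ 3 * (L * w) := iv_card (by nlinarith)
  have i5 : ((iv (L * (w * w))).card : ℝ) ≤ 3 * (L * (w * w)) := iv_card (by nlinarith [mul_pos hw0 hw0])
  calc _ ≤ (3 * (L / (w * w))) * (3 * (L / w)) * ((3 * L) * ((3 * (L * w)) * (3 * (L * (w * w))))) := by
        gcongr
    _ = 243 * L ^ 5 := by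
        field_simp
        ring

/-- **D3** -/
theorem d3 (h1 : S_D1) (h2 : S_D2) : S_D3 := by
  classical
  obtain ⟨C, hC, H⟩ := reduce h1 h2
  refine ⟨486 * (10 * C) ^ 5, by positivity, ?_⟩
  intro T hT S hS hne
  have hT0 : 0 < T := by linarith
  choose! G hG1 hG2 using fun F (hF : F ∈ S) => H T hT F (hS F hF).2.1 (hS F hF).2.2
  choose! j hj using hG2
  have hGa : ∀ F ∈ S, (G F).a ≠ 0 := fun F hF => (hS F hF).1 _ (hG1 F hF)
  obtain ⟨M, hM⟩ : ∃ M, M = (S.image j).sup id + 1 := ⟨_, rfl⟩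
  have hjM : ∀ F ∈ S, j F ∈ range M := by
    intro F hF
    rw [mem_range, hM]
    have := le_sup (f := id) (mem_image_of_mem j hF)
    simp only [id] at this
    omega
  have hcount : ∀ m : ℕ, (((S.filter (fun F => j F = m)).card : ℕ) : ℝ) ≤
      243 * (10 * (C * T)) ^ 5 * (1 / 4) ^ m := by
    intro m
    rcases (S.filter (fun F => j F = m)).eq_empty_or_nonempty with he | ⟨F₀, hF₀⟩
    · rw [he, card_empty, Nat.cast_zero]
      positivity
    · rw [mem_filter] at hF₀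
      obtain ⟨hF₀S, hF₀m⟩ := hF₀
      have hL : (16 : ℝ) ^ m ≤ 10 * (C * T) := by
        have h3 := (hj F₀ hF₀S).a
        rw [hF₀m] at h3
        have h4 : (1 : ℝ) ≤ |((G F₀).a : ℝ)| := by
          have : (1 : ℤ) ≤ |(G F₀).a| := Int.one_le_abs (hGa F₀ hF₀S)
          exact_mod_cast this
        have h5 : 0 < C * T := by positivity
        have h6 : (0 : ℝ) < 16 ^ m := by positivity
        nlinarith
      have hinj : ((S.filter (fun F => j F = m)) ×ˢ range (4 ^ m)).card ≤ (boxF (10 * (C * T)) m).card := by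
        apply card_le_card_of_injOn (fun z => (G z.1).sub 1 (z.2 : ℤ) 0 1)
        · rintro ⟨F, k⟩ hz
          rw [mem_coe, mem_product, mem_filter, mem_range] at hz
          obtain ⟨⟨h3, h4⟩, h5⟩ := hz
          rw [mem_coe]
          apply mem_boxF
          have h6 := hj F h3
          simp only at h4 h5
          rw [h4] at h6
          exact h6.uni h5
        · rintro ⟨F, k⟩ hz ⟨F', k'⟩ hz' heq
          rw [mem_coe, mem_product, mem_filter, mem_range] at hz hz'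
          obtain ⟨⟨h3, h4⟩, h5⟩ := hz
          obtain ⟨⟨h3', h4'⟩, h5'⟩ := hz'
          simp only at heq h3 h3' h4 h4' h5 h5'
          have hFF : F = F' := by
            by_contra hcon
            apply hne F h3 F' h3' hcon
            have e1 := (hG1 F h3).trans (Eqv.uni (G F) (k : ℤ))
            have e2 := (hG1 F' h3').trans (Eqv.uni (G F') (k' : ℤ))
            rw [heq] at e1
            exact e1.trans e2.symm
          subst hFF
          rw [Q4.sub_uni, Q4.sub_uni] at heq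
          have h6 := congrArg Q4.b heq
          simp only at h6
          have h7 : (4 * (G F).a) * (k : ℤ) = (4 * (G F).a) * (k' : ℤ) := by linarith
          have h8 : (k : ℤ) = k' := mul_left_cancel₀ (mul_ne_zero (by norm_num) (hGa F h3)) h7
          have h9 : k = k' := by exact_mod_cast h8
          rw [h9]
      rw [card_product, card_range] at hinj
      have h3 := boxF_card hL
      have h4 : (((S.filter (fun F => j F = m)).card : ℕ) : ℝ) * 4 ^ m ≤ 243 * (10 * (C * T)) ^ 5 := by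
        refine le_trans ?_ h3
        exact_mod_cast hinj
      rw [one_div, inv_pow, ← div_eq_mul_inv, le_div_iff₀ (by positivity)]
      exact h4
  have hsum : (S.card : ℝ) = ∑ m ∈ range M, (((S.filter (fun F => j F = m)).card : ℕ) : ℝ) := by
    rw [card_eq_sum_card_fiberwise (f := j) (t := range M) (fun F hF => hjM F hF)]
    push_cast
    rfl
  have hgeo : ∑ m ∈ range M, ((1 : ℝ) / 4) ^ m ≤ 2 := by
    have h3 : ∀ n : ℕ, ∑ m ∈ range n, ((1 : ℝ) / 4) ^ m ≤ 2 - 2 * (1 / 4) ^ n := by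
      intro n
      induction n with
      | zero => norm_num
      | succ n ih =>
        rw [sum_range_succ, pow_succ]
        have : (0 : ℝ) < (1 / 4) ^ n := by positivity
        linarith
    have h4 : (0 : ℝ) < (1 / 4) ^ M := by positivity
    linarith [h3 M]
  rw [hsum]
  calc _ ≤ ∑ m ∈ range M, 243 * (10 * (C * T)) ^ 5 * (1 / 4) ^ m := sum_le_sum fun m _ => hcount m
    _ = 243 * (10 * (C * T)) ^ 5 * ∑ m ∈ range M, (1 / 4) ^ m := by rw [mul_sum]
    _ ≤ 243 * (10 * (C * T)) ^ 5 * 2 := by gcongr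
    _ = 486 * (10 * C) ^ 5 * T ^ 5 := by ring

end Pool.Agent.L0h45.AR
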