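import Pool.Agent.L0h45.AR.Sum
import Pool.Agent.L0h45.AD.Shl

/-!
# The average of `2 ^ (a rank)` by conductor
-/

set_option autoImplicit false

open Finset

namespace Pool.Agent.L0h45.AR

open Pool.Agent.L0h45.AD (Fam ht Upto BH Shl Upto_fin)

/-- the rank -/
noncomputable def rk (q : ℤ × ℤ) : ℕ := Module.finrank ℤ (crv q.1 q.2).toAffine.Point

theorem rpow_le_one_add {u a : ℝ} (hu : 0 ≤ u) (ha0 : 0 ≤ a) (ha1 : a ≤ 1) : u ^ a ≤ 1 + u := by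
  rcases le_or_gt u 1 with h | h
  · have h1 : u ^ a ≤ 1 := Real.rpow_le_one hu h ha0
    linarith
  · have h1 : u ^ a ≤ u ^ (1 : ℝ) := Real.rpow_le_rpow_of_exponent_le h.le ha1
    rw [Real.rpow_one] at h1
    linarith

theorem add_rpow {u v p : ℝ} (hu : 0 ≤ u) (hv : 0 ≤ v) (hp0 : 0 ≤ p) (hp1 : p ≤ 1) :
    (u + v) ^ p ≤ 2 * (u ^ p + v ^ p) := by
  have h1 : u + v ≤ 2 * max u v := by
    have := le_max_left u v
    have := le_max_right u v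
    linarith
  have hm : 0 ≤ max u v := hu.trans (le_max_left _ _)
  have h2 : (u + v) ^ p ≤ 2 ^ p * (max u v) ^ p := by
    rw [← Real.mul_rpow (by norm_num) hm]
    exact Real.rpow_le_rpow (by positivity) h1 hp0
  have h3 : (2 : ℝ) ^ p ≤ 2 := by
    calc (2 : ℝ) ^ p ≤ 2 ^ (1 : ℝ) := Real.rpow_le_rpow_of_exponent_le (by norm_num) hp1
      _ = 2 := Real.rpow_one 2
  have h4 : (max u v) ^ p ≤ u ^ p + v ^ p := by
    have e1 : 0 ≤ u ^ p := by positivity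
    have e2 : 0 ≤ v ^ p := by positivity
    rcases max_choice u v with h | h
    · rw [h]; linarith
    · rw [h]; linarith
  calc (u + v) ^ p ≤ 2 ^ p * (max u v) ^ p := h2
    _ ≤ 2 * (u ^ p + v ^ p) := by gcongr

/-- interpolation between the number and the first moment -/
theorem interp {S : Finset (ℤ × ℤ)} {n M a : ℝ} (hn : 0 < n) (hM : 0 < M) (ha0 : 0 ≤ a) (ha1 : a ≤ 1)
    (h1 : (S.card : ℝ) ≤ n) (h2 : ∑ q ∈ S, (2 : ℝ) ^ (rk q) ≤ M) :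
    ∑ q ∈ S, ((2 : ℝ) ^ (rk q)) ^ a ≤ 2 * (M ^ a * n ^ (1 - a)) := by
  obtain ⟨τ, hτ⟩ : ∃ τ, τ = M / n := ⟨_, rfl⟩
  have hτ0 : 0 < τ := by rw [hτ]; positivity
  have hpt : ∀ q ∈ S, ((2 : ℝ) ^ (rk q)) ^ a ≤ τ ^ a * (1 + (2 : ℝ) ^ (rk q) / τ) := by
    intro q _
    have h3 : ((2 : ℝ) ^ (rk q)) = τ * ((2 : ℝ) ^ (rk q) / τ) := by field_simp
    have h4 := rpow_le_one_add (u := (2 : ℝ) ^ (rk q) / τ) (by positivity) ha0 ha1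
    calc ((2 : ℝ) ^ (rk q)) ^ a = (τ * ((2 : ℝ) ^ (rk q) / τ)) ^ a := by rw [← h3]
      _ = τ ^ a * ((2 : ℝ) ^ (rk q) / τ) ^ a := Real.mul_rpow hτ0.le (by positivity)
      _ ≤ _ := by gcongr
  have hτa : τ ^ a * n = M ^ a * n ^ (1 - a) := by
    rw [hτ, Real.div_rpow hM.le hn.le, Real.rpow_sub hn, Real.rpow_one]
    field_simp
  calc ∑ q ∈ S, ((2 : ℝ) ^ (rk q)) ^ a ≤ ∑ q ∈ S, τ ^ a * (1 + (2 : ℝ) ^ (rk q) / τ) :=
        sum_le_sum hpt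
    _ = τ ^ a * ((S.card : ℝ) + (∑ q ∈ S, (2 : ℝ) ^ (rk q)) / τ) := by
        rw [← mul_sum, sum_add_distrib, sum_const, nsmul_eq_mul, mul_one, sum_div]
    _ ≤ τ ^ a * (n + M / τ) := by gcongr
    _ = 2 * (τ ^ a * n) := by
        rw [hτ]
        field_simp
        ring
    _ = _ := by rw [hτa]

/-- **the moments** -/
theorem moment {s τ β a : ℝ} {I : ℤ × ℤ → ℝ} (hs : 0 < s) (hτ : 0 < τ) (hβ : 0 < β) (ha0 : 0 ≤ a)
    (ha1 : a < 1) (h1 : 5 / 6 * a < s * (1 - a)) (h2 : β * (5 / 6 * a + τ * (1 - a)) < 5 / 6)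
    (hI : Shl s τ I) : ∃ C : ℝ, 0 < C ∧ ∀ Z : ℝ, 1 ≤ Z → ∀ T : Finset (ℤ × ℤ),
    (∀ q ∈ T, q ∈ Upto I β Z) → ∑ q ∈ T, ((2 : ℝ) ^ (rk q)) ^ a ≤ C * Z ^ (5 / 6 : ℝ) := by
  obtain ⟨C₁, m, hC₁, hm1, H⟩ := hI
  obtain ⟨C₀, hC₀, HS⟩ := sum
  have hm0 : 0 < m := by linarith
  obtain ⟨θ, hθ⟩ : ∃ θ, θ = 5 / 6 * a + τ * (1 - a) := ⟨_, rfl⟩
  have h1a : 0 < 1 - a := by linarith
  have hθ0 : 0 < θ := by rw [hθ]; positivity
  obtain ⟨κ₁, hκ₁⟩ : ∃ κ₁, κ₁ = s * (1 - a) - 5 / 6 * a := ⟨_, rfl⟩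
  have hκ₁0 : 0 < κ₁ := by rw [hκ₁]; linarith
  obtain ⟨κ₂, hκ₂⟩ : ∃ κ₂, κ₂ = (5 / 6 - β * θ) / β := ⟨_, rfl⟩
  have hκ₂0 : 0 < κ₂ := by rw [hκ₂]; apply div_pos _ hβ; rw [hθ]; linarith
  have hκ₂e : β * (θ + κ₂) = 5 / 6 := by rw [hκ₂]; field_simp; ring
  obtain ⟨κ, hκ⟩ : ∃ κ, κ = min κ₁ κ₂ := ⟨_, rfl⟩
  have hκ0 : 0 < κ := by rw [hκ]; exact lt_min hκ₁0 hκ₂0
  -- one shell
  obtain ⟨D, hD⟩ : ∃ D : ℝ, D = 8 * ((C₀ * 64 ^ (5 / 6 : ℝ)) ^ a * C₁ ^ (1 - a)) := ⟨_, rfl⟩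
  have hD0 : 0 < D := by rw [hD]; positivity
  have hsum : ∀ Y : ℝ, 1 ≤ Y → ∀ T : Finset (ℤ × ℤ), (∀ q ∈ T, q ∈ Fam ∧ ht q ≤ Y) →
      ∑ q ∈ T, (2 : ℝ) ^ (rk q) ≤ C₀ * Y ^ (5 / 6 : ℝ) := by
    intro Y hY T hT
    apply HS Y hY T
    intro q hq
    obtain ⟨k1, k2⟩ := hT q hq
    unfold ht at k2
    rw [max_le_iff] at k2
    exact ⟨k1.1, k2.1, k2.2⟩
  have hshell : ∀ K Z : ℝ, m ≤ K → 1 ≤ Z → ∀ T : Finset (ℤ × ℤ),
      (∀ q ∈ T, q ∈ Fam ∧ I q ≤ Z ∧ K * Z < ht q ∧ ht q ≤ 64 * (K * Z) ∧ ht q ≤ Z ^ β) →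
      ∑ q ∈ T, ((2 : ℝ) ^ (rk q)) ^ a ≤ D * (Z ^ (5 / 6 : ℝ) * K ^ (-κ)) := by
    intro K Z hK hZ T hT
    have hZ0 : 0 < Z := by linarith
    have hK1 : 1 ≤ K := hm1.trans hK
    have hK0 : 0 < K := by linarith
    have hKZ : 1 ≤ K * Z := by nlinarith
    rcases T.eq_empty_or_nonempty with h0 | ⟨q₀, hq₀⟩
    · rw [h0, sum_empty]
      positivity
    have hlt : K * Z ≤ Z ^ β := ((hT q₀ hq₀).2.2.1.trans_le (hT q₀ hq₀).2.2.2.2).le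
    have hc := H K Z hK hZ T fun q hq => ⟨(hT q hq).1, (hT q hq).2.1, (hT q hq).2.2.1, (hT q hq).2.2.2.1⟩
    have hm := hsum (64 * (K * Z)) (by linarith) T fun q hq => ⟨(hT q hq).1, (hT q hq).2.2.2.1⟩
    have hi := interp (a := a) (n := C₁ * (K ^ (-s) * Z ^ (5 / 6 : ℝ) + (K * Z) ^ τ))
      (M := C₀ * (64 * (K * Z)) ^ (5 / 6 : ℝ)) (by positivity) (by positivity) ha0 ha1.le hc hm
    refine hi.trans ?_
    have e1 : (C₀ * (64 * (K * Z)) ^ (5 / 6 : ℝ)) ^ a =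
        (C₀ * 64 ^ (5 / 6 : ℝ)) ^ a * (K * Z) ^ (5 / 6 * a) := by
      have hKZ0 : 0 ≤ K * Z := by positivity
      have e0 : (64 * (K * Z)) ^ (5 / 6 : ℝ) = 64 ^ (5 / 6 : ℝ) * (K * Z) ^ (5 / 6 : ℝ) :=
        Real.mul_rpow (by norm_num) hKZ0
      rw [e0, ← mul_assoc]
      rw [Real.mul_rpow (x := C₀ * 64 ^ (5 / 6 : ℝ)) (y := (K * Z) ^ (5 / 6 : ℝ)) (by positivity)
        (by positivity), ← Real.rpow_mul hKZ0]
    have e2 : (C₁ * (K ^ (-s) * Z ^ (5 / 6 : ℝ) + (K * Z) ^ τ)) ^ (1 - a) ≤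
        C₁ ^ (1 - a) * (2 * ((K ^ (-s) * Z ^ (5 / 6 : ℝ)) ^ (1 - a) + ((K * Z) ^ τ) ^ (1 - a))) := by
      rw [Real.mul_rpow hC₁.le (by positivity)]
      gcongr
      exact add_rpow (by positivity) (by positivity) h1a.le (by linarith)
    have e3 : (K * Z) ^ (5 / 6 * a) * (K ^ (-s) * Z ^ (5 / 6 : ℝ)) ^ (1 - a) =
        Z ^ (5 / 6 : ℝ) * K ^ (-κ₁) := by
      rw [Real.mul_rpow hK0.le hZ0.le, Real.mul_rpow (by positivity) (by positivity),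
        ← Real.rpow_mul hK0.le, ← Real.rpow_mul hZ0.le]
      calc K ^ (5 / 6 * a) * Z ^ (5 / 6 * a) * (K ^ (-s * (1 - a)) * Z ^ (5 / 6 * (1 - a))) =
            (Z ^ (5 / 6 * a) * Z ^ (5 / 6 * (1 - a))) * (K ^ (5 / 6 * a) * K ^ (-s * (1 - a))) := by ring
        _ = Z ^ (5 / 6 : ℝ) * K ^ (-κ₁) := by
          rw [← Real.rpow_add hZ0, ← Real.rpow_add hK0]
          congr 2
          · ring
          · rw [hκ₁]; ring
    have e4 : (K * Z) ^ (5 / 6 * a) * ((K * Z) ^ τ) ^ (1 - a) ≤ Z ^ (5 / 6 : ℝ) * K ^ (-κ₂) := by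
      have hp : 0 < K * Z := by positivity
      rw [← Real.rpow_mul hp.le, ← Real.rpow_add hp, ← hθ]
      have e5 : (K * Z) ^ θ = (K * Z) ^ (θ + κ₂) * (K * Z) ^ (-κ₂) := by
        rw [← Real.rpow_add hp]
        congr 1
        ring
      rw [e5]
      have e6 : (K * Z) ^ (θ + κ₂) ≤ Z ^ (5 / 6 : ℝ) := by
        calc (K * Z) ^ (θ + κ₂) ≤ (Z ^ β) ^ (θ + κ₂) := Real.rpow_le_rpow hp.le hlt (by positivity)
          _ = Z ^ (5 / 6 : ℝ) := by rw [← Real.rpow_mul hZ0.le, hκ₂e]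
      have e7 : (K * Z) ^ (-κ₂) ≤ K ^ (-κ₂) :=
        Real.rpow_le_rpow_of_nonpos hK0 (by nlinarith) (by linarith)
      gcongr
    have e8 : K ^ (-κ₁) ≤ K ^ (-κ) :=
      Real.rpow_le_rpow_of_exponent_le hK1 (by rw [hκ]; linarith [min_le_left κ₁ κ₂])
    have e9 : K ^ (-κ₂) ≤ K ^ (-κ) :=
      Real.rpow_le_rpow_of_exponent_le hK1 (by rw [hκ]; linarith [min_le_right κ₁ κ₂])
    obtain ⟨P, hP⟩ : ∃ P : ℝ, P = (C₀ * 64 ^ (5 / 6 : ℝ)) ^ a := ⟨_, rfl⟩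
    have hP0 : 0 < P := by rw [hP]; positivity
    rw [e1, ← hP]
    calc 2 * (P * (K * Z) ^ (5 / 6 * a) * (C₁ * (K ^ (-s) * Z ^ (5 / 6 : ℝ) + (K * Z) ^ τ)) ^ (1 - a))
        ≤ 2 * (P * (K * Z) ^ (5 / 6 * a) * (C₁ ^ (1 - a) *
          (2 * ((K ^ (-s) * Z ^ (5 / 6 : ℝ)) ^ (1 - a) + ((K * Z) ^ τ) ^ (1 - a))))) := by gcongr
      _ = 4 * (P * C₁ ^ (1 - a)) * ((K * Z) ^ (5 / 6 * a) * (K ^ (-s) * Z ^ (5 / 6 : ℝ)) ^ (1 - a) +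
          (K * Z) ^ (5 / 6 * a) * ((K * Z) ^ τ) ^ (1 - a)) := by ring
      _ ≤ 4 * (P * C₁ ^ (1 - a)) * (Z ^ (5 / 6 : ℝ) * K ^ (-κ) + Z ^ (5 / 6 : ℝ) * K ^ (-κ)) := by
          rw [e3]
          have e10 : Z ^ (5 / 6 : ℝ) * K ^ (-κ₁) ≤ Z ^ (5 / 6 : ℝ) * K ^ (-κ) := by gcongr
          have e11 : (K * Z) ^ (5 / 6 * a) * ((K * Z) ^ τ) ^ (1 - a) ≤ Z ^ (5 / 6 : ℝ) * K ^ (-κ) := by
            refine e4.trans ?_
            gcongr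
          exact mul_le_mul_of_nonneg_left (add_le_add e10 e11) (by positivity)
      _ = D * (Z ^ (5 / 6 : ℝ) * K ^ (-κ)) := by rw [hD, hP]; ring
  obtain ⟨ρ, hρ⟩ : ∃ ρ : ℝ, ρ = (64 : ℝ) ^ (-κ) := ⟨_, rfl⟩
  have hρ0 : 0 < ρ := by rw [hρ]; positivity
  have hρ1 : ρ < 1 := by rw [hρ]; exact Real.rpow_lt_one_of_one_lt_of_neg (by norm_num) (by linarith)
  obtain ⟨D₀, hD₀⟩ : ∃ D₀ : ℝ, D₀ = C₀ * m ^ (5 / 6 : ℝ) := ⟨_, rfl⟩
  have hD₀0 : 0 < D₀ := by rw [hD₀]; positivity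
  refine ⟨D₀ + D / (1 - ρ), by have : 0 < 1 - ρ := by linarith
                               positivity, ?_⟩
  intro Z hZ
  have hZ0 : 0 < Z := by linarith
  have hZp : 0 < Z ^ (5 / 6 : ℝ) := by positivity
  have hind : ∀ L : ℕ, ∀ T : Finset (ℤ × ℤ), (∀ q ∈ T, q ∈ Upto I β Z ∧ ht q ≤ 64 ^ L * (m * Z)) →
      ∑ q ∈ T, ((2 : ℝ) ^ (rk q)) ^ a ≤ (D₀ + D * ((1 - ρ ^ L) / (1 - ρ))) * Z ^ (5 / 6 : ℝ) := by
    intro L
    induction L with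
    | zero =>
      intro T hT
      have k1 : ∑ q ∈ T, ((2 : ℝ) ^ (rk q)) ^ a ≤ ∑ q ∈ T, (2 : ℝ) ^ (rk q) := by
        apply sum_le_sum
        intro q _
        calc ((2 : ℝ) ^ (rk q)) ^ a ≤ ((2 : ℝ) ^ (rk q)) ^ (1 : ℝ) :=
              Real.rpow_le_rpow_of_exponent_le (one_le_pow₀ (by norm_num)) ha1.le
          _ = (2 : ℝ) ^ (rk q) := Real.rpow_one _
      have k2 := hsum (m * Z) (by nlinarith) T fun q hq => by
        obtain ⟨l1, l2⟩ := hT q hq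
        rw [pow_zero, one_mul] at l2
        exact ⟨l1.1, l2⟩
      rw [Real.mul_rpow hm0.le hZ0.le, ← mul_assoc, ← hD₀] at k2
      rw [pow_zero, sub_self, zero_div, mul_zero, add_zero]
      exact k1.trans k2
    | succ L ih =>
      intro T hT
      rw [← sum_filter_add_sum_filter_not T (fun q => ht q ≤ 64 ^ L * (m * Z))]
      have k1 := ih (T.filter (fun q => ht q ≤ 64 ^ L * (m * Z))) fun q hq => by
        rw [mem_filter] at hq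
        exact ⟨(hT q hq.1).1, hq.2⟩
      have h64 : (1 : ℝ) ≤ 64 ^ L := one_le_pow₀ (by norm_num)
      have k2 := hshell (64 ^ L * m) Z (by nlinarith) hZ
        (T.filter (fun q => ¬ ht q ≤ 64 ^ L * (m * Z))) fun q hq => by
          rw [mem_filter] at hq
          obtain ⟨l1, l2⟩ := hT q hq.1
          refine ⟨l1.1, l1.2.1, ?_, ?_, l1.2.2⟩
          · have := not_le.mp hq.2
            rw [mul_assoc]
            exact this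
          · rw [pow_succ] at l2
            calc ht q ≤ 64 ^ L * 64 * (m * Z) := l2
              _ = _ := by ring
      have k3 : (64 ^ L * m) ^ (-κ) ≤ ρ ^ L := by
        have l1 : ((64 : ℝ) ^ L * m) ^ (-κ) ≤ ((64 : ℝ) ^ L) ^ (-κ) :=
          Real.rpow_le_rpow_of_nonpos (by positivity) (by nlinarith) (by linarith)
        refine l1.trans (le_of_eq ?_)
        rw [hρ, ← Real.rpow_natCast, ← Real.rpow_natCast, ← Real.rpow_mul (by norm_num),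
          ← Real.rpow_mul (by norm_num)]
        congr 1
        ring
      have k4 : (D₀ + D * ((1 - ρ ^ (L + 1)) / (1 - ρ))) * Z ^ (5 / 6 : ℝ) =
          (D₀ + D * ((1 - ρ ^ L) / (1 - ρ))) * Z ^ (5 / 6 : ℝ) + D * (Z ^ (5 / 6 : ℝ) * ρ ^ L) := by
        have : (1 - ρ) ≠ 0 := by linarith
        rw [pow_succ]
        field_simp
        ring
      rw [k4]
      have k5 : D * (Z ^ (5 / 6 : ℝ) * (64 ^ L * m) ^ (-κ)) ≤ D * (Z ^ (5 / 6 : ℝ) * ρ ^ L) := by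
        gcongr
      linarith
  intro T hT
  obtain ⟨L, hL⟩ := pow_unbounded_of_one_lt (Z ^ β) (show (1 : ℝ) < 64 by norm_num)
  have k1 := hind L T fun q hq => by
    have l1 := hT q hq
    refine ⟨l1, ?_⟩
    have l2 := l1.2.2
    have h64 : (1 : ℝ) ≤ 64 ^ L := one_le_pow₀ (by norm_num)
    have l3 : 1 ≤ m * Z := by nlinarith
    nlinarith
  refine k1.trans ?_
  have k2 : D * ((1 - ρ ^ L) / (1 - ρ)) ≤ D / (1 - ρ) := by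
    have l1 : 0 < 1 - ρ := by linarith
    rw [mul_div_assoc', div_le_div_iff_of_pos_right l1]
    have l2 : 0 < ρ ^ L := by positivity
    nlinarith
  gcongr

end Pool.Agent.L0h45.AR
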