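import Mathlib
import Pool.Agent.Y700.VC

/-!
# Reduced models and isomorphic groups of points
-/

set_option autoImplicit false

namespace Pool.Agent.L0h45.AR

open WeierstrassCurve

/-- a reduced integral model -/
def Reduced (W : WeierstrassCurve ℤ) : Prop :=
  (W.a₁ = 0 ∨ W.a₁ = 1) ∧ (W.a₂ = -1 ∨ W.a₂ = 0 ∨ W.a₂ = 1) ∧ (W.a₃ = 0 ∨ W.a₃ = 1)

theorem reduced_unique {W W' : WeierstrassCurve ℤ} (h : Reduced W) (h' : Reduced W')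
    (h4 : W.c₄ = W'.c₄) (h6 : W.c₆ = W'.c₆) : W = W' := by
  obtain ⟨a1, a2, a3, a4, a6⟩ := W
  obtain ⟨a1', a2', a3', a4', a6'⟩ := W'
  obtain ⟨p1, p2, p3⟩ := h
  obtain ⟨q1, q2, q3⟩ := h'
  simp only [WeierstrassCurve.c₄, WeierstrassCurve.c₆, WeierstrassCurve.b₂, WeierstrassCurve.b₄,
    WeierstrassCurve.b₆] at h4 h6 p1 p2 p3 q1 q2 q3
  obtain ⟨B4, hB4⟩ : ∃ B4, B4 = 2 * a4 + a1 * a3 := ⟨_, rfl⟩
  obtain ⟨B6, hB6⟩ : ∃ B6, B6 = a3 ^ 2 + 4 * a6 := ⟨_, rfl⟩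
  obtain ⟨B4', hB4'⟩ : ∃ B4', B4' = 2 * a4' + a1' * a3' := ⟨_, rfl⟩
  obtain ⟨B6', hB6'⟩ : ∃ B6', B6' = a3' ^ 2 + 4 * a6' := ⟨_, rfl⟩
  rw [← hB4, ← hB4'] at h4
  rw [← hB4, ← hB4', ← hB6, ← hB6'] at h6
  have key : a1 = a1' ∧ a2 = a2' ∧ B4 = B4' ∧ B6 = B6' := by
    clear hB4 hB6 hB4' hB6' p3 q3
    rcases p1 with rfl | rfl <;> rcases p2 with rfl | rfl | rfl <;>
      rcases q1 with rfl | rfl <;> rcases q2 with rfl | rfl | rfl <;>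
      norm_num at h4 h6 ⊢ <;> omega
  obtain ⟨rfl, rfl, rfl, rfl⟩ := key
  have h3 : a3 = a3' := by
    rcases p3 with rfl | rfl <;> rcases q3 with rfl | rfl <;> norm_num at hB6 hB6' ⊢ <;> omega
  subst h3
  have e6 : a6 = a6' := by linarith
  have e4 : a4 = a4' := by linarith
  subst e6 e4
  rfl

/-- the two-division polynomial splits -/
def Spl (W : WeierstrassCurve ℤ) : Prop :=
  ∃ r₁ r₂ r₃ : ℚ, ∀ x : ℚ,
    4 * x ^ 3 + W.b₂ * x ^ 2 + 2 * W.b₄ * x + W.b₆ = 4 * (x - r₁) * (x - r₂) * (x - r₃)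

theorem exists_reduced (W : WeierstrassCurve ℤ) : ∃ W' : WeierstrassCurve ℤ, Reduced W' ∧
    W'.c₄ = W.c₄ ∧ W'.c₆ = W.c₆ ∧ (Spl W → Spl W') := by
  obtain ⟨s, a, hs, ha⟩ : ∃ s a : ℤ, W.a₁ + 2 * s = a ∧ (a = 0 ∨ a = 1) :=
    ⟨-(W.a₁ / 2), W.a₁ % 2, by omega, by omega⟩
  obtain ⟨r, b, hr, hb⟩ : ∃ r b : ℤ, (W.a₂ - s * W.a₁ - s ^ 2) + 3 * r = b ∧
      (b = -1 ∨ b = 0 ∨ b = 1) := by
    generalize W.a₂ - s * W.a₁ - s ^ 2 = m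
    exact ⟨-((m + 1) / 3), (m + 1) % 3 - 1, by omega, by omega⟩
  obtain ⟨t, c, ht, hc⟩ : ∃ t c : ℤ, (W.a₃ + r * W.a₁) + 2 * t = c ∧ (c = 0 ∨ c = 1) := by
    generalize W.a₃ + r * W.a₁ = m
    exact ⟨-(m / 2), m % 2, by omega, by omega⟩
  refine ⟨⟨a, b, c, W.a₄ - s * W.a₃ + 2 * r * W.a₂ - (t + r * s) * W.a₁ + 3 * r ^ 2 - 2 * s * t,
    W.a₆ + r * W.a₄ + r ^ 2 * W.a₂ + r ^ 3 - t * W.a₃ - t ^ 2 - r * t * W.a₁⟩, ⟨ha, hb, hc⟩,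
    ?_, ?_, ?_⟩
  · subst hs hr ht
    simp only [WeierstrassCurve.c₄, WeierstrassCurve.b₂, WeierstrassCurve.b₄]
    ring
  · subst hs hr ht
    simp only [WeierstrassCurve.c₆, WeierstrassCurve.b₂, WeierstrassCurve.b₄,
      WeierstrassCurve.b₆]
    ring
  · rintro ⟨r₁, r₂, r₃, h⟩
    refine ⟨r₁ - r, r₂ - r, r₃ - r, fun x => ?_⟩
    have h1 := h (x + r)
    subst hs hr ht
    simp only [WeierstrassCurve.b₂, WeierstrassCurve.b₄, WeierstrassCurve.b₆] at h1 ⊢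
    push_cast at h1 ⊢
    linear_combination h1

section

variable {F : Type*} [Field F]

/-- the short model -/
def sh (c4 c6 : F) : WeierstrassCurve F := ⟨0, 0, 0, -27 * c4, -54 * c6⟩

open Pool.Agent.Y700 in
theorem vr_sh (E : WeierstrassCurve F) (h6 : (6 : F) ≠ 0) :
    VR (sh E.c₄ E.c₆) E 6 (3 * E.b₂) (3 * E.a₁) (108 * E.a₃) where
  u0 := h6
  e1 := by unfold sh; ring
  e2 := by unfold sh WeierstrassCurve.b₂; ring
  e3 := by unfold sh; ring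
  e4 := by
    unfold sh WeierstrassCurve.c₄ WeierstrassCurve.b₂ WeierstrassCurve.b₄
    ring
  e6 := by
    unfold sh WeierstrassCurve.c₄ WeierstrassCurve.c₆ WeierstrassCurve.b₂ WeierstrassCurve.b₄
      WeierstrassCurve.b₆
    ring

open Pool.Agent.Y700 in
theorem vr_sc (c4 c6 : F) {u : F} (hu : u ≠ 0) :
    VR (sh (u ^ 4 * c4) (u ^ 6 * c6)) (sh c4 c6) u 0 0 0 where
  u0 := hu
  e1 := by unfold sh; ring
  e2 := by unfold sh; ring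
  e3 := by unfold sh; ring
  e4 := by unfold sh; ring
  e6 := by unfold sh; ring

end

open Pool.Agent.Y700 in
/-- curves with proportional invariants have the same rank -/
theorem finrank_eq {W W' : WeierstrassCurve ℚ} {u : ℚ} (hu : u ≠ 0) (h4 : W.c₄ = u ^ 4 * W'.c₄)
    (h6 : W.c₆ = u ^ 6 * W'.c₆) (hD : W.Δ ≠ 0) (hD' : W'.Δ ≠ 0) :
    Module.finrank ℤ W.toAffine.Point = Module.finrank ℤ W'.toAffine.Point := by
  have v1 := vr_sh W (by norm_num)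
  have v2 := vr_sh W' (by norm_num)
  have v3 := vr_sc W'.c₄ W'.c₆ hu
  rw [← h4, ← h6] at v3
  have d2 : (sh W'.c₄ W'.c₆).Δ ≠ 0 := v2.delta_ne hD'
  have e1 := (v1.equiv hD).toIntLinearEquiv.finrank_eq
  have e2 := (v2.equiv hD').toIntLinearEquiv.finrank_eq
  have e3 := (v3.equiv d2).toIntLinearEquiv.finrank_eq
  rw [e1, e2, e3]

end Pool.Agent.L0h45.AR
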