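import Mathlib

/-!
# Project AR (helper45): the average rank of all elliptic curves over `ℚ`, ordered by conductor, is bounded

Statements of the modules. Binary quartic forms `a X⁴ + b X³ Y + c X² Y² + d X Y³ + e Y⁴`.
-/

set_option autoImplicit false

open Polynomial

namespace Pool.Agent.L0h45.AR

/-- binary quartic forms -/
@[ext] structure Q4 (R : Type) where
  /-- coefficient of `X⁴` -/
  a : R
  /-- coefficient of `X³ Y` -/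
  b : R
  /-- coefficient of `X² Y²` -/
  c : R
  /-- coefficient of `X Y³` -/
  d : R
  /-- coefficient of `Y⁴` -/
  e : R

variable {R : Type} [CommRing R]

/-- the invariant `I` -/
def Q4.I (F : Q4 R) : R := 12 * F.a * F.e - 3 * F.b * F.d + F.c ^ 2

/-- the invariant `J` -/
def Q4.J (F : Q4 R) : R :=
  72 * F.a * F.c * F.e + 9 * F.b * F.c * F.d - 27 * F.a * F.d ^ 2 - 27 * F.e * F.b ^ 2 - 2 * F.c ^ 3

/-- the form `F (p X + q Y, r X + s Y)` -/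
def Q4.sub (F : Q4 R) (p q r s : R) : Q4 R where
  a := F.a * p ^ 4 + F.b * p ^ 3 * r + F.c * p ^ 2 * r ^ 2 + F.d * p * r ^ 3 + F.e * r ^ 4
  b := 4 * F.a * p ^ 3 * q + F.b * (p ^ 3 * s + 3 * p ^ 2 * q * r) +
    F.c * (2 * p * q * r ^ 2 + 2 * p ^ 2 * r * s) + F.d * (q * r ^ 3 + 3 * p * r ^ 2 * s) +
    4 * F.e * r ^ 3 * s
  c := 6 * F.a * p ^ 2 * q ^ 2 + F.b * (3 * p ^ 2 * q * s + 3 * p * q ^ 2 * r) +
    F.c * (p ^ 2 * s ^ 2 + 4 * p * q * r * s + q ^ 2 * r ^ 2) +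
    F.d * (3 * p * r * s ^ 2 + 3 * q * r ^ 2 * s) + 6 * F.e * r ^ 2 * s ^ 2
  d := 4 * F.a * p * q ^ 3 + F.b * (q ^ 3 * r + 3 * p * q ^ 2 * s) +
    F.c * (2 * p * q * s ^ 2 + 2 * q ^ 2 * r * s) + F.d * (p * s ^ 3 + 3 * q * r * s ^ 2) +
    4 * F.e * r * s ^ 3
  e := F.a * q ^ 4 + F.b * q ^ 3 * s + F.c * q ^ 2 * s ^ 2 + F.d * q * s ^ 3 + F.e * s ^ 4

/-- the largest coefficient of a real form -/
noncomputable def Q4.N (F : Q4 ℝ) : ℝ := max |F.a| (max |F.b| (max |F.c| (max |F.d| |F.e|)))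

/-- the form over the real numbers -/
def Q4.toR (F : Q4 ℤ) : Q4 ℝ := ⟨F.a, F.b, F.c, F.d, F.e⟩

/-- equivalence under `SL₂(ℤ)` -/
def Eqv (F G : Q4 ℤ) : Prop := ∃ p q r s : ℤ, p * s - q * r = 1 ∧ G = F.sub p q r s

/-- no equivalent form has the leading coefficient `0` -/
def NoRoot (F : Q4 ℤ) : Prop := ∀ G : Q4 ℤ, Eqv F G → G.a ≠ 0

/-! ### Real forms -/

/-- D1: real forms are equivalent to forms with coefficients bounded in terms of the invariants. -/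
def S_D1 : Prop := ∃ C : ℝ, 0 < C ∧ ∀ F : Q4 ℝ, 0 < |F.I| ^ 3 + F.J ^ 2 →
  ∃ p q r s : ℝ, p * s - q * r = 1 ∧ (F.sub p q r s).N ^ 6 ≤ C * (|F.I| ^ 3 + F.J ^ 2)

/-- D2: reduction of lattices in the plane: the columns of `(p, q; r, s) γ` are short for some `γ` in `SL₂(ℤ)`. -/
def S_D2 : Prop := ∀ p q r s : ℝ, p * s - q * r = 1 → ∃ p' q' r' s' : ℤ, p' * s' - q' * r' = 1 ∧
  (p * p' + q * r') ^ 2 + (r * p' + s * r') ^ 2 ≤ (p * q' + q * s') ^ 2 + (r * q' + s * s') ^ 2 ∧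
  ((p * p' + q * r') ^ 2 + (r * p' + s * r') ^ 2) *
    ((p * q' + q * s') ^ 2 + (r * q' + s * s') ^ 2) ≤ 4 / 3

/-- D3: the number of classes of integral forms with bounded invariants and without a rational root. -/
def S_D3 : Prop := ∃ C : ℝ, 0 < C ∧ ∀ T : ℝ, 1 ≤ T → ∀ S : Finset (Q4 ℤ),
  (∀ F ∈ S, NoRoot F ∧ 0 < |(F.I : ℝ)| ^ 3 + (F.J : ℝ) ^ 2 ∧
    |(F.I : ℝ)| ^ 3 + (F.J : ℝ) ^ 2 ≤ T ^ 6) →
  (∀ F ∈ S, ∀ G ∈ S, F ≠ G → ¬ Eqv F G) → (S.card : ℝ) ≤ C * T ^ 5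

/-! ### The curve `y² = x³ + A x + B` -/

/-- the cubic polynomial -/
noncomputable def cub (A B : ℤ) : ℚ[X] := X ^ 3 + C (A : ℚ) * X + C (B : ℚ)

/-- the algebra `ℚ[θ]` -/
abbrev Alg (A B : ℤ) : Type := AdjoinRoot (cub A B)

/-- `θ` -/
noncomputable abbrev th (A B : ℤ) : Alg A B := AdjoinRoot.root (cub A B)

/-- the number `z(F) = (4 a φ + 3 b² - 8 a c) / 3` with `φ = - 12 θ` -/
noncomputable def zz (A B : ℤ) (F : Q4 ℤ) : Alg A B :=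
  ((F.b ^ 2 : ℤ) : Alg A B) - (AdjoinRoot.of (cub A B) (8 / 3 * (F.a * F.c))) - ((16 * F.a : ℤ) : Alg A B) * th A B

/-- the curve -/
def crv (A B : ℤ) : WeierstrassCurve ℚ := ⟨0, 0, 0, A, B⟩

/-- B0: the quartic form of a point. -/
def S_FP : Prop := ∀ (A B : ℤ) (x y : ℚ), y ^ 2 = x ^ 3 + A * x + B →
  ∃ (F : Q4 ℤ) (t : ℤ), F.I = - 48 * A ∧ F.J = - 1728 * B ∧ t ≠ 0 ∧
    zz A B F = ((t ^ 2 : ℤ) : Alg A B) * (AdjoinRoot.of (cub A B) x - th A B)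

/-- B1: equivalent forms have `z` in the same class modulo squares. -/
def S_EQV : Prop := ∀ (A B : ℤ) (F G : Q4 ℤ), F.I = - 48 * A → F.J = - 1728 * B → Eqv F G →
  IsSquare (zz A B F * zz A B G)

/-- B2: if `x(P) - θ` is a square, then `P` is a double. -/
def S_HALF : Prop := ∀ (A B : ℤ), 4 * A ^ 3 + 27 * B ^ 2 ≠ 0 → ∀ (x y : ℚ)
  (h : (crv A B).toAffine.Nonsingular x y), IsSquare (AdjoinRoot.of (cub A B) x - th A B) →
  ∃ Q : (crv A B).toAffine.Point, Q + Q = .some x y h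

/-- B3: if `(x(P) - θ) (x(P') - θ)` is a square, and `P`, `P'` are not of order `2`, then `P - P'` is a double. -/
def S_PAIR : Prop := ∀ (A B : ℤ), 4 * A ^ 3 + 27 * B ^ 2 ≠ 0 → ∀ (x y x' y' : ℚ)
  (h : (crv A B).toAffine.Nonsingular x y) (h' : (crv A B).toAffine.Nonsingular x' y'), y ≠ 0 → y' ≠ 0 →
  IsSquare ((AdjoinRoot.of (cub A B) x - th A B) * (AdjoinRoot.of (cub A B) x' - th A B)) →
  ∃ Q : (crv A B).toAffine.Point, Q + Q + .some x' y' h' = .some x y h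

/-- C: in a finitely generated abelian group there are `2 ^ rank` classes modulo doubles. -/
def S_MW : Prop := ∀ (G : Type) [AddCommGroup G], AddGroup.FG G → ∃ S : Finset G,
  S.card = 2 ^ Module.finrank ℤ G ∧ ∀ a ∈ S, ∀ b ∈ S, a ≠ b → ∀ c : G, c + c + b ≠ a

/-- E: many inequivalent quartic forms. -/
def S_COS : Prop := ∀ (A B : ℤ), 4 * A ^ 3 + 27 * B ^ 2 ≠ 0 → ∃ S : Finset (Q4 ℤ),
  2 ^ Module.finrank ℤ (crv A B).toAffine.Point ≤ S.card + 5 ∧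
  (∀ F ∈ S, F.I = - 48 * A ∧ F.J = - 1728 * B ∧ NoRoot F) ∧ ∀ F ∈ S, ∀ G ∈ S, F ≠ G → ¬ Eqv F G

/-- F: the sum over the curves up to a given height. -/
def S_SUM : Prop := ∃ C : ℝ, 0 < C ∧ ∀ Y : ℝ, 1 ≤ Y → ∀ S : Finset (ℤ × ℤ),
  (∀ q ∈ S, 4 * q.1 ^ 3 + 27 * q.2 ^ 2 ≠ 0 ∧ 4 * |(q.1 : ℝ)| ^ 3 ≤ Y ∧ 27 * (q.2 : ℝ) ^ 2 ≤ Y) →
  ∑ q ∈ S, (2 : ℝ) ^ Module.finrank ℤ (crv q.1 q.2).toAffine.Point ≤ C * Y ^ (5 / 6 : ℝ)

end Pool.Agent.L0h45.AR
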