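import Pool.Agent.L0h45.AR.Cos
import Pool.Agent.L0h45.AR.D1
import Pool.Agent.L0h45.AR.D2

/-!
# SUM: the sum of `2 ^ rank` over the curves up to a given height
-/

set_option autoImplicit false

open Finset

namespace Pool.Agent.L0h45.AR

theorem rpow_six {Y : ℝ} (hY : 1 ≤ Y) : (Y ^ (1 / 6 : ℝ)) ^ 6 = Y := by
  rw [← Real.rpow_natCast, ← Real.rpow_mul (by linarith)]
  norm_num

/-- the number of pairs -/
theorem pairs_card {Y : ℝ} (hY : 1 ≤ Y) (S : Finset (ℤ × ℤ))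
    (hS : ∀ q ∈ S, 4 * |(q.1 : ℝ)| ^ 3 ≤ Y ∧ 27 * (q.2 : ℝ) ^ 2 ≤ Y) :
    (S.card : ℝ) ≤ 9 * Y ^ (5 / 6 : ℝ) := by
  obtain ⟨y, hy⟩ : ∃ y, y = Y ^ (1 / 6 : ℝ) := ⟨_, rfl⟩
  have hy6 : y ^ 6 = Y := by rw [hy]; exact rpow_six hY
  have hy1 : 1 ≤ y := by rw [hy]; exact Real.one_le_rpow hY (by norm_num)
  have hsub : S ⊆ iv (y ^ 2) ×ˢ iv (y ^ 3) := by
    intro q hq
    obtain ⟨h1, h2⟩ := hS q hq
    rw [mem_product, mem_iv, mem_iv]
    constructor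
    · have h3 : |(q.1 : ℝ)| ^ 3 ≤ (y ^ 2) ^ 3 := by
        have : 0 ≤ |(q.1 : ℝ)| ^ 3 := by positivity
        calc |(q.1 : ℝ)| ^ 3 ≤ Y := by linarith
          _ = (y ^ 2) ^ 3 := by rw [← hy6]; ring
      exact le_of_pow_le_pow_left₀ (by norm_num) (by positivity) h3
    · have h3 : |(q.2 : ℝ)| ^ 2 ≤ (y ^ 3) ^ 2 := by
        have : 0 ≤ (q.2 : ℝ) ^ 2 := by positivity
        rw [sq_abs]
        calc (q.2 : ℝ) ^ 2 ≤ Y := by linarith
          _ = (y ^ 3) ^ 2 := by rw [← hy6]; ring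
      exact le_of_pow_le_pow_left₀ (by norm_num) (by positivity) h3
  have h1 := card_le_card hsub
  rw [card_product] at h1
  have h2 : (S.card : ℝ) ≤ ((iv (y ^ 2)).card : ℝ) * ((iv (y ^ 3)).card : ℝ) := by exact_mod_cast h1
  have h3 : ((iv (y ^ 2)).card : ℝ) ≤ 3 * y ^ 2 := iv_card (one_le_pow₀ hy1)
  have h4 : ((iv (y ^ 3)).card : ℝ) ≤ 3 * y ^ 3 := iv_card (one_le_pow₀ hy1)
  have h5 : y ^ 5 = Y ^ (5 / 6 : ℝ) := by
    rw [hy, ← Real.rpow_natCast, ← Real.rpow_mul (by linarith)]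
    norm_num
  calc (S.card : ℝ) ≤ _ := h2
    _ ≤ (3 * y ^ 2) * (3 * y ^ 3) := by gcongr
    _ = 9 * y ^ 5 := by ring
    _ = 9 * Y ^ (5 / 6 : ℝ) := by rw [h5]

/-- **SUM** -/
theorem sum : S_SUM := by
  classical
  obtain ⟨C, hC, H⟩ := d3 d1 d2
  refine ⟨C * 8 ^ 5 + 45, by positivity, ?_⟩
  intro Y hY S hS
  have hY0 : 0 < Y := by linarith
  obtain ⟨y, hy⟩ : ∃ y, y = Y ^ (1 / 6 : ℝ) := ⟨_, rfl⟩
  have hy6 : y ^ 6 = Y := by rw [hy]; exact rpow_six hY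
  have hy1 : 1 ≤ y := by rw [hy]; exact Real.one_le_rpow hY (by norm_num)
  have hy5 : y ^ 5 = Y ^ (5 / 6 : ℝ) := by
    rw [hy, ← Real.rpow_natCast, ← Real.rpow_mul (by linarith)]
    norm_num
  haveI : Nonempty (Finset (Q4 ℤ)) := ⟨∅⟩
  choose! G hG1 hG2 hG3 using fun (q : ℤ × ℤ) (hq : q ∈ S) => cos q.1 q.2 (hS q hq).1
  have hinv : ∀ q ∈ S, ∀ q' ∈ S, ∀ F ∈ G q, ∀ F' ∈ G q', Eqv F F' → q = q' := by
    intro q hq q' hq' F hF F' hF' he
    have h1 := he.I_eq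
    have h2 := he.J_eq
    rw [(hG2 q hq F hF).1, (hG2 q' hq' F' hF').1] at h1
    rw [(hG2 q hq F hF).2.1, (hG2 q' hq' F' hF').2.1] at h2
    apply Prod.ext
    · omega
    · omega
  have hdisj : ∀ q ∈ S, ∀ q' ∈ S, q ≠ q' → Disjoint (G q) (G q') := by
    intro q hq q' hq' hne
    rw [disjoint_left]
    intro F hF hF'
    exact hne (hinv q hq q' hq' F hF F hF' (Eqv.refl F))
  have hall := H (8 * y) (by linarith) (S.biUnion G) (by
    intro F hF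
    rw [mem_biUnion] at hF
    obtain ⟨q, hq, hF⟩ := hF
    obtain ⟨hI, hJ, hn⟩ := hG2 q hq F hF
    obtain ⟨hD, h3, h4⟩ := hS q hq
    refine ⟨hn, ?_, ?_⟩
    · rw [hI, hJ]
      push_cast
      by_contra hcon
      push Not at hcon
      have e1 : 0 ≤ |(-48 * (q.1 : ℝ))| ^ 3 := by positivity
      have e2 : 0 ≤ (-1728 * (q.2 : ℝ)) ^ 2 := by positivity
      have e3 : |(-48 * (q.1 : ℝ))| ^ 3 = 0 := by linarith
      have e4 : (-1728 * (q.2 : ℝ)) ^ 2 = 0 := by linarith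
      have e5 : (q.1 : ℝ) = 0 := by
        have := pow_eq_zero_iff (n := 3) (by norm_num) |>.mp e3
        rw [abs_eq_zero] at this
        linarith
      have e6 : (q.2 : ℝ) = 0 := by
        have := pow_eq_zero_iff (n := 2) (by norm_num) |>.mp e4
        linarith
      have e7 : q.1 = 0 := by exact_mod_cast e5
      have e8 : q.2 = 0 := by exact_mod_cast e6
      apply hD
      rw [e7, e8]
      norm_num
    · rw [hI, hJ]
      push_cast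
      rw [abs_mul, mul_pow]
      have e1 : |(-48 : ℝ)| = 48 := by norm_num
      rw [e1]
      calc (48 : ℝ) ^ 3 * |(q.1 : ℝ)| ^ 3 + (-1728 * (q.2 : ℝ)) ^ 2 =
            27648 * (4 * |(q.1 : ℝ)| ^ 3) + 110592 * (27 * (q.2 : ℝ) ^ 2) := by ring
        _ ≤ 27648 * Y + 110592 * Y := by gcongr
        _ ≤ 8 ^ 6 * Y := by linarith
        _ = (8 * y) ^ 6 := by rw [mul_pow, hy6])
    (by
      intro F hF F' hF' hne he
      rw [mem_biUnion] at hF hF'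
      obtain ⟨q, hq, hF⟩ := hF
      obtain ⟨q', hq', hF'⟩ := hF'
      have h1 := hinv q hq q' hq' F hF F' hF' he
      subst h1
      exact hG3 q hq F hF F' hF' hne he)
  rw [card_biUnion hdisj] at hall
  push_cast at hall
  have h1 : ∑ q ∈ S, (2 : ℝ) ^ Module.finrank ℤ (crv q.1 q.2).toAffine.Point ≤
      ∑ q ∈ S, (((G q).card : ℝ) + 5) := by
    apply sum_le_sum
    intro q hq
    exact_mod_cast hG1 q hq
  rw [sum_add_distrib, sum_const, nsmul_eq_mul] at h1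
  have h2 := pairs_card hY S fun q hq => (hS q hq).2
  calc _ ≤ _ := h1
    _ ≤ C * (8 * y) ^ 5 + (9 * Y ^ (5 / 6 : ℝ)) * 5 := by gcongr
    _ = (C * 8 ^ 5 + 45) * Y ^ (5 / 6 : ℝ) := by rw [mul_pow, hy5]; ring

end Pool.Agent.L0h45.AR
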